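import Pool.Agent.R974.AT.Defs

/-!
# AT-MSET: measurable sets for the events `X = v` (MP_097655_pr)
-/

set_option autoImplicit false

open MeasureTheory ProbabilityTheory Filter Topology Set
open scoped ENNReal NNReal

noncomputable section

namespace Pool.Agent.R444.ATM

open Pool.Agent.R974.Span (GBM dq mx dense_dq measurable_mx le_mx mx_le)
open R974.AT

/-- dense times in `[0, t]` -/
def tm (t : ℝ≥0) (i : ℕ) : ℝ≥0 := min (dq i) t

/-- the approximate span set condition -/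
def ASp (t : ℝ≥0) : Set (ℝ × (ℝ≥0 → ℝ)) :=
  {q | 0 ≤ q.1 ∧ ∀ n : ℕ, ∃ i j : ℕ, |((tm t j : ℝ≥0) : ℝ) - (tm t i : ℝ≥0) - q.1| < 1 / ((n : ℝ) + 1) ∧
    |q.2 (tm t j) - q.2 (tm t i)| < 1 / ((n : ℝ) + 1)}

lemma measurableSet_ASp (t : ℝ≥0) : MeasurableSet (ASp t) := by
  have h0 : MeasurableSet {q : ℝ × (ℝ≥0 → ℝ) | 0 ≤ q.1} :=
    measurableSet_le measurable_const measurable_fst
  have h1 : ∀ (n i j : ℕ), MeasurableSet {q : ℝ × (ℝ≥0 → ℝ) |
      |((tm t j : ℝ≥0) : ℝ) - (tm t i : ℝ≥0) - q.1| < 1 / ((n : ℝ) + 1)} := by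
    intro n i j
    refine measurableSet_lt ?_ measurable_const
    exact (measurable_const.sub measurable_fst).abs
  have h2 : ∀ (n i j : ℕ), MeasurableSet {q : ℝ × (ℝ≥0 → ℝ) |
      |q.2 (tm t j) - q.2 (tm t i)| < 1 / ((n : ℝ) + 1)} := by
    intro n i j
    refine measurableSet_lt ?_ measurable_const
    exact (((measurable_pi_apply (tm t j)).comp measurable_snd).sub
      ((measurable_pi_apply (tm t i)).comp measurable_snd)).abs
  have h3 : ASp t = {q : ℝ × (ℝ≥0 → ℝ) | 0 ≤ q.1} ∩ ⋂ n : ℕ, ⋃ i : ℕ, ⋃ j : ℕ,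
      ({q : ℝ × (ℝ≥0 → ℝ) | |((tm t j : ℝ≥0) : ℝ) - (tm t i : ℝ≥0) - q.1| < 1 / ((n : ℝ) + 1)} ∩
      {q : ℝ × (ℝ≥0 → ℝ) | |q.2 (tm t j) - q.2 (tm t i)| < 1 / ((n : ℝ) + 1)}) := by
    ext q
    simp only [ASp, mem_inter_iff, mem_iInter, mem_iUnion, Set.mem_ofPred_eq]
  rw [h3]
  exact h0.inter (MeasurableSet.iInter fun n => MeasurableSet.iUnion fun i =>
    MeasurableSet.iUnion fun j => (h1 n i j).inter (h2 n i j))

/-- for every time in `[0,t]` and a continuous path there is a dense time close by -/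
lemma exists_tm {w : ℝ≥0 → ℝ} (hw : Continuous w) {t s : ℝ≥0} (hs : s ≤ t) {e : ℝ} (he : 0 < e) :
    ∃ i, |((tm t i : ℝ≥0) : ℝ) - s| < e ∧ |w (tm t i) - w s| < e := by
  have hc1 : Continuous (fun x : ℝ≥0 => ((min x t : ℝ≥0) : ℝ)) := by fun_prop
  have hc2 : Continuous (fun x : ℝ≥0 => w (min x t)) := by fun_prop
  have ho : IsOpen {x : ℝ≥0 | |((min x t : ℝ≥0) : ℝ) - s| < e ∧ |w (min x t) - w s| < e} :=
    (isOpen_lt (hc1.sub continuous_const).abs continuous_const).inter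
      (isOpen_lt (hc2.sub continuous_const).abs continuous_const)
  have hne : {x : ℝ≥0 | |((min x t : ℝ≥0) : ℝ) - s| < e ∧ |w (min x t) - w s| < e}.Nonempty := by
    refine ⟨s, ?_⟩
    simp only [Set.mem_ofPred_eq, min_eq_left hs, sub_self, abs_zero]
    exact ⟨he, he⟩
  obtain ⟨x, hx1, ⟨i, rfl⟩⟩ := dense_dq.inter_open_nonempty _ ho hne
  exact ⟨i, hx1⟩

lemma mem_ASp_iff {w : ℝ≥0 → ℝ} (hw : Continuous w) (t : ℝ≥0) (h : ℝ) :
    (h, w) ∈ ASp t ↔ h ∈ Sp w t := by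
  constructor
  · rintro ⟨h0, hn⟩
    simp only at h0 hn
    have hK : IsCompact (Icc (0 : ℝ≥0) t ×ˢ Icc (0 : ℝ≥0) t) := isCompact_Icc.prod isCompact_Icc
    have hKne : (Icc (0 : ℝ≥0) t ×ˢ Icc (0 : ℝ≥0) t).Nonempty :=
      ⟨(0, 0), ⟨⟨le_rfl, zero_le⟩, ⟨le_rfl, zero_le⟩⟩⟩
    have hF : Continuous (fun z : ℝ≥0 × ℝ≥0 =>
        max |((z.2 : ℝ≥0) : ℝ) - z.1 - h| |w z.2 - w z.1|) := by fun_prop
    obtain ⟨⟨s, u⟩, ⟨hs, hu⟩, hmin⟩ := hK.exists_isMinOn hKne hF.continuousOn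
    have hle : ∀ n : ℕ, max |((u : ℝ≥0) : ℝ) - s - h| |w u - w s| < 1 / ((n : ℝ) + 1) := by
      intro n
      obtain ⟨i, j, h1, h2⟩ := hn n
      have h3 := hmin (show (tm t i, tm t j) ∈ Icc (0 : ℝ≥0) t ×ˢ Icc (0 : ℝ≥0) t from
        ⟨⟨zero_le, min_le_right _ _⟩, ⟨zero_le, min_le_right _ _⟩⟩)
      simp only [Set.mem_ofPred_eq] at h3
      exact h3.trans_lt (max_lt h1 h2)
    have hz : max |((u : ℝ≥0) : ℝ) - s - h| |w u - w s| ≤ 0 := by
      by_contra hcon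
      push Not at hcon
      obtain ⟨n, hn'⟩ := exists_nat_one_div_lt hcon
      exact absurd (hle n) (not_lt.2 hn'.le)
    have hz1 : ((u : ℝ≥0) : ℝ) - s - h = 0 :=
      abs_eq_zero.1 (le_antisymm ((le_max_left _ _).trans hz) (abs_nonneg _))
    have hz2 : w u - w s = 0 :=
      abs_eq_zero.1 (le_antisymm ((le_max_right _ _).trans hz) (abs_nonneg _))
    refine ⟨s, u, ?_, hu.2, by linarith, by linarith⟩
    rw [← NNReal.coe_le_coe]; linarith
  · rintro ⟨s, u, hsu, hut, hw2, rfl⟩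
    have hsu' : (s : ℝ) ≤ u := by exact_mod_cast hsu
    refine ⟨by simp only; linarith, fun n => ?_⟩
    have he : (0 : ℝ) < 1 / ((n : ℝ) + 1) / 2 := by positivity
    obtain ⟨i, hi1, hi2⟩ := exists_tm hw (hsu.trans hut) he
    obtain ⟨j, hj1, hj2⟩ := exists_tm hw hut he
    refine ⟨i, j, ?_, ?_⟩
    · simp only
      rw [abs_lt] at hi1 hj1 ⊢
      constructor <;> linarith [hi1.1, hi1.2, hj1.1, hj1.2]
    · simp only
      rw [abs_lt] at hi2 hj2 ⊢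
      constructor <;> linarith [hi2.1, hi2.2, hj2.1, hj2.2]

lemma isClosed_Sp {w : ℝ≥0 → ℝ} (hw : Continuous w) (t : ℝ≥0) : IsClosed (Sp w t) := by
  have hK : IsCompact ((Icc (0 : ℝ≥0) t ×ˢ Icc (0 : ℝ≥0) t) ∩
      {z : ℝ≥0 × ℝ≥0 | z.1 ≤ z.2 ∧ w z.1 = w z.2}) := by
    refine (isCompact_Icc.prod isCompact_Icc).inter_right ?_
    exact (isClosed_le continuous_fst continuous_snd).inter
      (isClosed_eq (hw.comp continuous_fst) (hw.comp continuous_snd))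
  have hS : Sp w t = (fun z : ℝ≥0 × ℝ≥0 => ((z.2 : ℝ≥0) : ℝ) - z.1) ''
      ((Icc (0 : ℝ≥0) t ×ˢ Icc (0 : ℝ≥0) t) ∩
      {z : ℝ≥0 × ℝ≥0 | z.1 ≤ z.2 ∧ w z.1 = w z.2}) := by
    ext h
    constructor
    · rintro ⟨s, u, h1, h2, h3, rfl⟩
      exact ⟨(s, u), ⟨⟨⟨zero_le, h1.trans h2⟩, ⟨zero_le, h2⟩⟩, ⟨h1, h3⟩⟩, rfl⟩
    · rintro ⟨⟨s, u⟩, ⟨⟨⟨_, h1⟩, ⟨_, h2⟩⟩, ⟨h3, h4⟩⟩, rfl⟩
      exact ⟨s, u, h3, h2, h4, rfl⟩
  rw [hS]
  exact (hK.image (by fun_prop)).isClosed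

lemma sInf_eq_iff {D : Set ℝ} (hD : IsOpen D) (hne : D.Nonempty) (hb : BddBelow D) (v : ℝ) :
    sInf D = v ↔ (∀ q : ℚ, (q : ℝ) ∈ D → v ≤ q) ∧
      ∀ n : ℕ, ∃ q : ℚ, (q : ℝ) ∈ D ∧ (q : ℝ) < v + 1 / ((n : ℝ) + 1) := by
  have key : ∀ x : ℝ, sInf D < x → ∃ q : ℚ, (q : ℝ) ∈ D ∧ (q : ℝ) < x := by
    intro x hx
    obtain ⟨y, hy1, hy2⟩ := exists_lt_of_csInf_lt hne hx
    have ho : IsOpen (D ∩ Iio x) := hD.inter isOpen_Iio
    obtain ⟨z, hz, ⟨q, rfl⟩⟩ := Rat.denseRange_cast.inter_open_nonempty _ ho ⟨y, hy1, hy2⟩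
    exact ⟨q, hz.1, hz.2⟩
  constructor
  · rintro rfl
    refine ⟨fun q hq => csInf_le hb hq, fun n => key _ ?_⟩
    have : (0 : ℝ) < 1 / ((n : ℝ) + 1) := by positivity
    linarith
  · rintro ⟨h1, h2⟩
    apply le_antisymm
    · apply le_of_forall_pos_lt_add
      intro e he
      obtain ⟨n, hn⟩ := exists_nat_one_div_lt he
      obtain ⟨q, hq1, hq2⟩ := h2 n
      have := csInf_le hb hq1
      linarith
    · by_contra hcon
      push Not at hcon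
      obtain ⟨q, hq1, hq2⟩ := key v hcon
      exact absurd (h1 q hq1) (not_le.2 hq2)

/-- the sign version of a long complete excursion, measurable form -/
def Q (t : ℝ≥0) (l : ℝ) (w : ℝ≥0 → ℝ) : Prop :=
  ∃ i j : ℕ, dq j ≤ t ∧ dq i < dq j ∧ l < (dq j : ℝ) - dq i ∧
    mx w (dq i) (dq j) < mx w 0 (dq i) ∧ mx w (dq i) (dq j) < mx w (dq j) t

lemma measurableSet_Q (t : ℝ≥0) (l : ℝ) : MeasurableSet {w | Q t l w} := by
  have h1 : {w | Q t l w} = ⋃ i : ℕ, ⋃ j : ℕ, ({_w : ℝ≥0 → ℝ | dq j ≤ t ∧ dq i < dq j ∧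
      l < (dq j : ℝ) - dq i} ∩ ({w | mx w (dq i) (dq j) < mx w 0 (dq i)} ∩
      {w | mx w (dq i) (dq j) < mx w (dq j) t})) := by
    ext w
    simp only [Q, mem_inter_iff, mem_iUnion, Set.mem_ofPred_eq]
    constructor
    · rintro ⟨i, j, h1, h2, h3, h4, h5⟩
      exact ⟨i, j, ⟨h1, h2, h3⟩, h4, h5⟩
    · rintro ⟨i, j, ⟨h1, h2, h3⟩, h4, h5⟩
      exact ⟨i, j, h1, h2, h3, h4, h5⟩
  rw [h1]
  exact MeasurableSet.iUnion fun i => MeasurableSet.iUnion fun j =>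
    (MeasurableSet.const _).inter ((measurableSet_lt (measurable_mx _ _) (measurable_mx _ _)).inter
      (measurableSet_lt (measurable_mx _ _) (measurable_mx _ _)))

lemma mx_attained {w : ℝ≥0 → ℝ} (hw : Continuous w) {a b : ℝ≥0} (hab : a ≤ b) :
    ∃ c, a ≤ c ∧ c ≤ b ∧ mx w a b = w c := by
  obtain ⟨c, hc, hmax⟩ := isCompact_Icc.exists_isMaxOn (nonempty_Icc.2 hab) hw.continuousOn
  refine ⟨c, hc.1, hc.2, le_antisymm (mx_le hab fun s h1 h2 => hmax ⟨h1, h2⟩) (le_mx hw hc.1 hc.2)⟩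

lemma Q_iff {w : ℝ≥0 → ℝ} (hw : Continuous w) (t : ℝ≥0) {l : ℝ} (hl : 0 ≤ l) :
    Q t l w ↔ ∃ p q : ℝ≥0, p < q ∧ q ≤ t ∧ w p = w q ∧ (∀ u, p < u → u < q → w u < w p) ∧
      l < (q : ℝ) - p := by
  constructor
  · rintro ⟨i, j, hjt, hij, hlij, h1, h2⟩
    set a := dq i with ha
    set b := dq j with hb
    set y : ℝ := min (mx w 0 a) (mx w b t) with hy
    have hyab : mx w a b < y := lt_min h1 h2
    have hwa : w a < y := (le_mx hw le_rfl hij.le).trans_lt hyab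
    have hwb : w b < y := (le_mx hw hij.le le_rfl).trans_lt hyab
    -- last time before `a`
    have hKp : IsCompact (Icc (0 : ℝ≥0) a ∩ {s | y ≤ w s}) :=
      isCompact_Icc.inter_right (isClosed_le continuous_const hw)
    have hKpne : (Icc (0 : ℝ≥0) a ∩ {s | y ≤ w s}).Nonempty := by
      obtain ⟨c, hc1, hc2, hc3⟩ := mx_attained hw (zero_le (a := a))
      exact ⟨c, ⟨hc1, hc2⟩, by simp only [Set.mem_ofPred_eq]; rw [← hc3]; exact min_le_left _ _⟩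
    obtain ⟨p, ⟨⟨⟨_, hpa⟩, hyp⟩, hpub⟩⟩ := hKp.exists_isGreatest hKpne
    simp only [Set.mem_ofPred_eq] at hyp
    have hKq : IsCompact (Icc b t ∩ {s | y ≤ w s}) :=
      isCompact_Icc.inter_right (isClosed_le continuous_const hw)
    have hKqne : (Icc b t ∩ {s | y ≤ w s}).Nonempty := by
      obtain ⟨c, hc1, hc2, hc3⟩ := mx_attained hw hjt
      exact ⟨c, ⟨hc1, hc2⟩, by simp only [Set.mem_ofPred_eq]; rw [← hc3]; exact min_le_right _ _⟩
    obtain ⟨q, ⟨⟨⟨hbq, hqt⟩, hyq⟩, hqlb⟩⟩ := hKq.exists_isLeast hKqne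
    simp only [Set.mem_ofPred_eq] at hyq
    have hwp : w p = y := by
      obtain ⟨u, hu, hu2⟩ := intermediate_value_Icc' hpa hw.continuousOn
        (show y ∈ Icc (w a) (w p) from ⟨hwa.le, hyp⟩)
      have h3 := hpub (show u ∈ Icc (0 : ℝ≥0) a ∩ {s | y ≤ w s} from
        ⟨⟨zero_le, hu.2⟩, by simp only [Set.mem_ofPred_eq]; exact hu2.ge⟩)
      rw [← hu2, le_antisymm h3 hu.1]
    have hwq : w q = y := by
      obtain ⟨u, hu, hu2⟩ := intermediate_value_Icc hbq hw.continuousOn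
        (show y ∈ Icc (w b) (w q) from ⟨hwb.le, hyq⟩)
      have h3 := hqlb (show u ∈ Icc b t ∩ {s | y ≤ w s} from
        ⟨⟨hu.1, hu.2.trans hqt⟩, by simp only [Set.mem_ofPred_eq]; exact hu2.ge⟩)
      rw [← hu2, le_antisymm h3 hu.2]
    refine ⟨p, q, hpa.trans_lt (hij.trans_le hbq), hqt, hwp.trans hwq.symm, ?_, ?_⟩
    · intro u hu1 hu2
      rw [hwp]
      by_contra hcon
      push Not at hcon
      rcases le_or_gt u a with hua | hua
      · exact absurd (hpub (show u ∈ Icc (0 : ℝ≥0) a ∩ {s | y ≤ w s} from ⟨⟨zero_le, hua⟩, hcon⟩))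
          (not_le.2 hu1)
      · rcases le_or_gt b u with hub | hub
        · exact absurd (hqlb (show u ∈ Icc b t ∩ {s | y ≤ w s} from
            ⟨⟨hub, hu2.le.trans hqt⟩, hcon⟩)) (not_le.2 hu2)
        · have := le_mx hw hua.le hub.le
          linarith
    · have e1 : (p : ℝ) ≤ a := by exact_mod_cast hpa
      have e2 : (b : ℝ) ≤ q := by exact_mod_cast hbq
      linarith
  · rintro ⟨p, q, hpq, hqt, hwpq, hlt, hlpq⟩
    set e : ℝ := ((q : ℝ) - p - l) / 2 with he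
    have he0 : 0 < e := by rw [he]; linarith
    have h1 : p < p + e.toNNReal := lt_add_of_pos_right p (Real.toNNReal_pos.2 he0)
    obtain ⟨_, ⟨i, rfl⟩, hi1, hi2⟩ := Dense.exists_between dense_dq h1
    have hq0 : (0 : ℝ) ≤ (q : ℝ) - e := by
      have : (0 : ℝ) ≤ p := p.2
      rw [he]; linarith
    have h2 : ((q : ℝ) - e).toNNReal < q := by
      rw [← NNReal.coe_lt_coe, Real.coe_toNNReal _ hq0]; linarith
    obtain ⟨_, ⟨j, rfl⟩, hj1, hj2⟩ := Dense.exists_between dense_dq h2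
    have hi2' : (dq i : ℝ) < p + e := by
      have := NNReal.coe_lt_coe.2 hi2
      rwa [NNReal.coe_add, Real.coe_toNNReal _ he0.le] at this
    have hj1' : (q : ℝ) - e < dq j := by
      have := NNReal.coe_lt_coe.2 hj1
      rwa [Real.coe_toNNReal _ hq0] at this
    have hij' : l < (dq j : ℝ) - dq i := by rw [he] at hi2' hj1'; linarith
    have hij : dq i < dq j := by rw [← NNReal.coe_lt_coe]; linarith
    have hjt : dq j ≤ t := hj2.le.trans hqt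
    obtain ⟨c, hc1, hc2, hc3⟩ := mx_attained hw hij.le
    have hwc : w c < w p := hlt c (hi1.trans_le hc1) (hc2.trans_lt hj2)
    refine ⟨i, j, hjt, hij, hij', ?_, ?_⟩
    · rw [hc3]
      exact hwc.trans_le (le_mx hw zero_le hi1.le)
    · rw [hc3]
      exact hwc.trans_le (hwpq.trans_le (le_mx hw hj2.le hqt))

/-- `l < RR w t` in measurable form -/
def G (t : ℝ≥0) (l : ℝ) (w : ℝ≥0 → ℝ) : Prop := l < 0 ∨ Q t l w ∨ Q t l (fun s => -w s)

lemma measurableSet_G (t : ℝ≥0) (l : ℝ) : MeasurableSet {w | G t l w} := by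
  have h1 : {w | G t l w} = {_w : ℝ≥0 → ℝ | l < 0} ∪ ({w | Q t l w} ∪
      (fun (w : ℝ≥0 → ℝ) (s : ℝ≥0) => -w s) ⁻¹' {w | Q t l w}) := by
    ext w
    simp only [G, mem_union, Set.mem_ofPred_eq, mem_preimage]
  rw [h1]
  refine (MeasurableSet.const _).union ((measurableSet_Q t l).union ?_)
  exact (measurable_pi_lambda _ fun s => (measurable_pi_apply s).neg) (measurableSet_Q t l)

lemma G_iff {w : ℝ≥0 → ℝ} (hw : Continuous w) (t : ℝ≥0) (l : ℝ) : G t l w ↔ l < RR w t := by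
  have hnn : 0 ≤ RR w t := by
    apply Real.sSup_nonneg
    rintro x ⟨p, q, hpq, -, -, -, rfl⟩
    have : (p : ℝ) < q := by exact_mod_cast hpq
    linarith
  have hbdd : BddAbove (Exc w t) := by
    refine ⟨t, ?_⟩
    rintro x ⟨p, q, hpq, hqt, -, -, rfl⟩
    have h1 : (q : ℝ) ≤ t := by exact_mod_cast hqt
    have h2 : (0 : ℝ) ≤ p := p.2
    linarith
  rcases lt_or_ge l 0 with hl | hl
  · exact ⟨fun _ => hl.trans_le hnn, fun _ => Or.inl hl⟩
  have hwn : Continuous (fun s => -w s) := hw.neg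
  constructor
  · rintro (h | h | h)
    · exact absurd h (not_lt.2 hl)
    · obtain ⟨p, q, hpq, hqt, h1, h2, h3⟩ := (Q_iff hw t hl).1 h
      exact lt_csSup_of_lt hbdd ⟨p, q, hpq, hqt, h1, fun u hu1 hu2 => (h2 u hu1 hu2).ne, rfl⟩ h3
    · obtain ⟨p, q, hpq, hqt, h1, h2, h3⟩ := (Q_iff hwn t hl).1 h
      refine lt_csSup_of_lt hbdd ⟨p, q, hpq, hqt, neg_injective h1, fun u hu1 hu2 h4 => ?_, rfl⟩ h3
      have := h2 u hu1 hu2
      rw [h4] at this
      exact lt_irrefl _ this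
  · intro h
    have hne : (Exc w t).Nonempty := by
      rw [nonempty_iff_ne_empty]
      intro h0
      rw [RR, h0, Real.sSup_empty] at h
      exact absurd h (not_lt.2 hl)
    obtain ⟨x, ⟨p, q, hpq, hqt, h1, h2, rfl⟩, h3⟩ := exists_lt_of_lt_csSup hne h
    right
    by_cases hs : ∀ u, p < u → u < q → w u < w p
    · left
      exact (Q_iff hw t hl).2 ⟨p, q, hpq, hqt, h1, hs, h3⟩
    · right
      refine (Q_iff hwn t hl).2 ⟨p, q, hpq, hqt, by simp only [h1], ?_, h3⟩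
      push Not at hs
      obtain ⟨u1, hu1, hu1', hu1w⟩ := hs
      intro u hu hu'
      by_contra hcon
      push Not at hcon
      obtain ⟨z, hz, hz2⟩ := (isPreconnected_Ioo (a := p) (b := q)).intermediate_value
        (show u ∈ Ioo p q from ⟨hu, hu'⟩) (show u1 ∈ Ioo p q from ⟨hu1, hu1'⟩) hw.continuousOn
        (show w p ∈ Icc (w u) (w u1) from ⟨by linarith, hu1w⟩)
      exact h2 z hz.1 hz.2 hz2

/-- AT-MSET -/
theorem mset_thm : S_MSET := by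
  intro t v ht
  refine ⟨?_, ?_, ?_⟩
  · refine ⟨{w | (volume ((fun h : ℝ => (h, w)) ⁻¹' ASp t)).toReal = v}, ?_, ?_⟩
    · have h1 := measurable_measure_prodMk_right (μ := (volume : Measure ℝ)) (measurableSet_ASp t)
      exact h1.ennreal_toReal (measurableSet_singleton v)
    · intro w hw
      have h2 : (fun h : ℝ => (h, w)) ⁻¹' ASp t = Sp w t := by
        ext h
        exact mem_ASp_iff hw t h
      simp only [Set.mem_ofPred_eq, h2, SS]
  · refine ⟨{w | (∀ q : ℚ, 0 < (q : ℝ) → ((q : ℝ), w) ∉ ASp t → v ≤ q) ∧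
      ∀ n : ℕ, ∃ q : ℚ, (0 < (q : ℝ) ∧ ((q : ℝ), w) ∉ ASp t) ∧ (q : ℝ) < v + 1 / ((n : ℝ) + 1)},
      ?_, ?_⟩
    · have hA : ∀ q : ℚ, MeasurableSet {w : ℝ≥0 → ℝ | ((q : ℝ), w) ∈ ASp t} := by
        intro q
        exact measurable_prodMk_left (measurableSet_ASp t)
      have h1 : {w : ℝ≥0 → ℝ | (∀ q : ℚ, 0 < (q : ℝ) → ((q : ℝ), w) ∉ ASp t → v ≤ q) ∧
          ∀ n : ℕ, ∃ q : ℚ, (0 < (q : ℝ) ∧ ((q : ℝ), w) ∉ ASp t) ∧
            (q : ℝ) < v + 1 / ((n : ℝ) + 1)} =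
          (⋂ q : ℚ, ({_w : ℝ≥0 → ℝ | ¬ 0 < (q : ℝ)} ∪ {w : ℝ≥0 → ℝ | ((q : ℝ), w) ∈ ASp t} ∪
            {_w : ℝ≥0 → ℝ | v ≤ q})) ∩
          ⋂ n : ℕ, ⋃ q : ℚ, ({_w : ℝ≥0 → ℝ | 0 < (q : ℝ) ∧ (q : ℝ) < v + 1 / ((n : ℝ) + 1)} ∩
            {w : ℝ≥0 → ℝ | ((q : ℝ), w) ∈ ASp t}ᶜ) := by
        ext w
        simp only [mem_inter_iff, mem_iInter, mem_iUnion, mem_union, mem_compl_iff,
          Set.mem_ofPred_eq]
        constructor
        · rintro ⟨h1, h2⟩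
          refine ⟨fun q => ?_, fun n => ?_⟩
          · have := h1 q
            tauto
          · obtain ⟨q, ⟨h3, h4⟩, h5⟩ := h2 n
            exact ⟨q, ⟨h3, h5⟩, h4⟩
        · rintro ⟨h1, h2⟩
          refine ⟨fun q => ?_, fun n => ?_⟩
          · have := h1 q
            tauto
          · obtain ⟨q, ⟨h3, h5⟩, h4⟩ := h2 n
            exact ⟨q, ⟨h3, h4⟩, h5⟩
      rw [h1]
      refine (MeasurableSet.iInter fun q => ((MeasurableSet.const _).union (hA q)).union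
        (MeasurableSet.const _)).inter (MeasurableSet.iInter fun n => MeasurableSet.iUnion fun q =>
          (MeasurableSet.const _).inter (hA q).compl)
    · intro w hw
      have hD : IsOpen {h : ℝ | 0 < h ∧ h ∉ Sp w t} :=
        isOpen_Ioi.inter (isClosed_Sp hw t).isOpen_compl
      have hne : {h : ℝ | 0 < h ∧ h ∉ Sp w t}.Nonempty := by
        refine ⟨(t : ℝ) + 1, ?_, ?_⟩
        · have : (0 : ℝ) ≤ t := t.2
          linarith
        · rintro ⟨s, u, h1, h2, h3, h4⟩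
          have e1 : (u : ℝ) ≤ t := by exact_mod_cast h2
          have e2 : (0 : ℝ) ≤ s := s.2
          linarith
      have hb : BddBelow {h : ℝ | 0 < h ∧ h ∉ Sp w t} := ⟨0, fun h hh => hh.1.le⟩
      rw [TT, sInf_eq_iff hD hne hb v]
      simp only [Set.mem_ofPred_eq, mem_ASp_iff hw t, and_imp]
  · refine ⟨{w | (∀ n : ℕ, G t (v - 1 / ((n : ℝ) + 1)) w) ∧ ¬ G t v w}, ?_, ?_⟩
    · have h1 : {w | (∀ n : ℕ, G t (v - 1 / ((n : ℝ) + 1)) w) ∧ ¬ G t v w} =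
          (⋂ n : ℕ, {w | G t (v - 1 / ((n : ℝ) + 1)) w}) ∩ {w | G t v w}ᶜ := by
        ext w
        simp only [mem_inter_iff, mem_iInter, mem_compl_iff, Set.mem_ofPred_eq]
      rw [h1]
      exact (MeasurableSet.iInter fun n => measurableSet_G _ _).inter (measurableSet_G _ _).compl
    · intro w hw
      simp only [Set.mem_ofPred_eq, G_iff hw t]
      constructor
      · rintro ⟨h1, h2⟩
        apply le_antisymm (not_lt.1 h2)
        apply le_of_forall_pos_lt_add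
        intro e he
        obtain ⟨n, hn⟩ := exists_nat_one_div_lt he
        have := h1 n
        linarith
      · rintro rfl
        refine ⟨fun n => ?_, lt_irrefl _⟩
        have : (0 : ℝ) < 1 / ((n : ℝ) + 1) := by positivity
        linarith

end Pool.Agent.R444.ATM
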