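import Pool.Agent.R974.BW.Defs

/-!
Piece BW-BF of the project BW (helper974): the finite-dimensional laws of the three-dimensional Bessel process
started at `0`, from the one-step identity and the Markov property.
-/

set_option autoImplicit false

namespace Pool.Agent.R444.BWBF

open MeasureTheory ProbabilityTheory Filter Topology Set
open Pool.Agent.R967.FB
open Pool.Agent.R974.BW
open scoped ENNReal NNReal

/-- the law of `(w s, shift s w)` -/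
lemma map_pair (h2 : S_MKV) {W : Measure Pth} (hW : IsWiener W) (s : ℝ≥0) (Φ : ℝ → Pth → ℝ≥0∞)
    (hΦ : Measurable (fun p : ℝ × Pth => Φ p.1 p.2)) :
    ∫⁻ w, Φ (w s) (shift s w) ∂W = ∫⁻ a, ∫⁻ q, Φ a q ∂W ∂(gaussianReal 0 s) := by
  have hWp : IsProbabilityMeasure W := hW.toIsPreBrownianReal.isGaussianProcess.isProbabilityMeasure
  have hm : Measurable (fun p : Pth × Pth => Φ (p.1 s) p.2) :=
    hΦ.comp (((measurable_eval s).comp measurable_fst).prodMk measurable_snd)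
  have h := h2 W hW s (fun p => Φ (p.1 s) p.2) hm
  have e : ∀ w : Pth, (stp s w) s = w s := by
    intro w
    show w (min s s) = w s
    rw [min_self]
  simp only [e] at h
  rw [h]
  have hl : HasLaw (fun w : Pth => w s) (gaussianReal 0 s) W := hW.toIsPreBrownianReal.hasLaw_eval s
  rw [← hl.map_eq, lintegral_map (f := fun a => ∫⁻ q, Φ a q ∂W) _ (measurable_eval s)]
  exact hΦ.lintegral_prod_right'

/-- the three-dimensional Markov property -/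
lemma markov3 (h2 : S_MKV) {W : Measure Pth} (hW : IsWiener W) (s : ℝ≥0)
    (Φ : (ℝ × ℝ × ℝ) × (Pth × Pth × Pth) → ℝ≥0∞) (hΦ : Measurable Φ) :
    ∫⁻ p : Pth × Pth × Pth, Φ ((p.1 s, p.2.1 s, p.2.2 s), (shift s p.1, shift s p.2.1, shift s p.2.2)) ∂(W3 W) =
      ∫⁻ a, ∫⁻ b, ∫⁻ c, ∫⁻ q, Φ ((a, b, c), q) ∂(W3 W)
        ∂(gaussianReal 0 s) ∂(gaussianReal 0 s) ∂(gaussianReal 0 s) := by
  have hWp : IsProbabilityMeasure W := hW.toIsPreBrownianReal.isGaussianProcess.isProbabilityMeasure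
  have hsh := measurable_shift s
  have hev := measurable_eval s
  unfold W3
  rw [lintegral_prod _ (by fun_prop)]
  have e1 : ∀ x : Pth, ∫⁻ (y : Pth × Pth), Φ ((x s, y.1 s, y.2 s), (shift s x, shift s y.1, shift s y.2)) ∂(W.prod W) =
      ∫⁻ y₁, ∫⁻ y₂, Φ ((x s, y₁ s, y₂ s), (shift s x, shift s y₁, shift s y₂)) ∂W ∂W := by
    intro x
    rw [lintegral_prod _ (by fun_prop)]
  simp only [e1]
  have e2 : ∀ x y₁ : Pth, ∫⁻ y₂, Φ ((x s, y₁ s, y₂ s), (shift s x, shift s y₁, shift s y₂)) ∂W =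
      ∫⁻ c, ∫⁻ q₃, Φ ((x s, y₁ s, c), (shift s x, shift s y₁, q₃)) ∂W ∂(gaussianReal 0 s) := by
    intro x y₁
    exact map_pair h2 hW s (fun c q => Φ ((x s, y₁ s, c), (shift s x, shift s y₁, q))) (by fun_prop)
  simp only [e2]
  have e3 : ∀ x : Pth, ∫⁻ y₁, ∫⁻ c, ∫⁻ q₃, Φ ((x s, y₁ s, c), (shift s x, shift s y₁, q₃)) ∂W ∂(gaussianReal 0 s) ∂W =
      ∫⁻ b, ∫⁻ q₂, ∫⁻ c, ∫⁻ q₃, Φ ((x s, b, c), (shift s x, q₂, q₃)) ∂W ∂(gaussianReal 0 s) ∂W ∂(gaussianReal 0 s) := by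
    intro x
    refine map_pair h2 hW s
      (fun b q₂ => ∫⁻ c, ∫⁻ q₃, Φ ((x s, b, c), (shift s x, q₂, q₃)) ∂W ∂(gaussianReal 0 s)) ?_
    refine Measurable.lintegral_prod_right' (f := fun r : (ℝ × Pth) × ℝ =>
      ∫⁻ q₃, Φ ((x s, r.1.1, r.2), (shift s x, r.1.2, q₃)) ∂W) ?_
    refine Measurable.lintegral_prod_right' (f := fun r : ((ℝ × Pth) × ℝ) × Pth =>
      Φ ((x s, r.1.1.1, r.1.2), (shift s x, r.1.1.2, r.2))) ?_
    fun_prop
  simp only [e3]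
  have e4 : ∫⁻ x, ∫⁻ b, ∫⁻ q₂, ∫⁻ c, ∫⁻ q₃, Φ ((x s, b, c), (shift s x, q₂, q₃))
        ∂W ∂(gaussianReal 0 s) ∂W ∂(gaussianReal 0 s) ∂W =
      ∫⁻ a, ∫⁻ q₁, ∫⁻ b, ∫⁻ q₂, ∫⁻ c, ∫⁻ q₃, Φ ((a, b, c), (q₁, q₂, q₃))
        ∂W ∂(gaussianReal 0 s) ∂W ∂(gaussianReal 0 s) ∂W ∂(gaussianReal 0 s) := by
    refine map_pair h2 hW s
      (fun a q₁ => ∫⁻ b, ∫⁻ q₂, ∫⁻ c, ∫⁻ q₃, Φ ((a, b, c), (q₁, q₂, q₃))
        ∂W ∂(gaussianReal 0 s) ∂W ∂(gaussianReal 0 s)) ?_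
    refine Measurable.lintegral_prod_right' (f := fun r : (ℝ × Pth) × ℝ =>
      ∫⁻ q₂, ∫⁻ c, ∫⁻ q₃, Φ ((r.1.1, r.2, c), (r.1.2, q₂, q₃)) ∂W ∂(gaussianReal 0 s) ∂W) ?_
    refine Measurable.lintegral_prod_right' (f := fun r : ((ℝ × Pth) × ℝ) × Pth =>
      ∫⁻ c, ∫⁻ q₃, Φ ((r.1.1.1, r.1.2, c), (r.1.1.2, r.2, q₃)) ∂W ∂(gaussianReal 0 s)) ?_
    refine Measurable.lintegral_prod_right' (f := fun r : (((ℝ × Pth) × ℝ) × Pth) × ℝ =>
      ∫⁻ q₃, Φ ((r.1.1.1.1, r.1.1.2, r.2), (r.1.1.1.2, r.1.2, q₃)) ∂W) ?_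
    refine Measurable.lintegral_prod_right' (f := fun r : ((((ℝ × Pth) × ℝ) × Pth) × ℝ) × Pth =>
      Φ ((r.1.1.1.1.1, r.1.1.1.2, r.1.2), (r.1.1.1.1.2, r.1.1.2, r.2))) ?_
    fun_prop
  rw [e4]
  refine lintegral_congr fun a => ?_
  -- swap q₁ and b
  rw [lintegral_lintegral_swap]
  swap
  · refine Measurable.aemeasurable ?_
    refine Measurable.lintegral_prod_right' (f := fun r : (Pth × ℝ) × Pth =>
      ∫⁻ c, ∫⁻ q₃, Φ ((a, r.1.2, c), (r.1.1, r.2, q₃)) ∂W ∂(gaussianReal 0 s)) ?_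
    refine Measurable.lintegral_prod_right' (f := fun r : ((Pth × ℝ) × Pth) × ℝ =>
      ∫⁻ q₃, Φ ((a, r.1.1.2, r.2), (r.1.1.1, r.1.2, q₃)) ∂W) ?_
    refine Measurable.lintegral_prod_right' (f := fun r : (((Pth × ℝ) × Pth) × ℝ) × Pth =>
      Φ ((a, r.1.1.1.2, r.1.2), (r.1.1.1.1, r.1.1.2, r.2))) ?_
    fun_prop
  refine lintegral_congr fun b => ?_
  -- swap q₂ and c
  have e5 : ∀ q₁ : Pth, ∫⁻ q₂, ∫⁻ c, ∫⁻ q₃, Φ ((a, b, c), (q₁, q₂, q₃)) ∂W ∂(gaussianReal 0 s) ∂W =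
      ∫⁻ c, ∫⁻ q₂, ∫⁻ q₃, Φ ((a, b, c), (q₁, q₂, q₃)) ∂W ∂W ∂(gaussianReal 0 s) := by
    intro q₁
    rw [lintegral_lintegral_swap]
    refine Measurable.aemeasurable ?_
    refine Measurable.lintegral_prod_right' (f := fun r : (Pth × ℝ) × Pth =>
      Φ ((a, b, r.1.2), (q₁, r.1.1, r.2))) ?_
    fun_prop
  simp only [e5]
  rw [lintegral_lintegral_swap]
  swap
  · refine Measurable.aemeasurable ?_
    refine Measurable.lintegral_prod_right' (f := fun r : (Pth × ℝ) × Pth =>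
      ∫⁻ q₃, Φ ((a, b, r.1.2), (r.1.1, r.2, q₃)) ∂W) ?_
    refine Measurable.lintegral_prod_right' (f := fun r : ((Pth × ℝ) × Pth) × Pth =>
      Φ ((a, b, r.1.1.2), (r.1.1.1, r.1.2, r.2))) ?_
    fun_prop
  refine lintegral_congr fun c => ?_
  rw [lintegral_prod _ (by fun_prop)]
  refine lintegral_congr fun q₁ => ?_
  rw [lintegral_prod _ (by fun_prop)]

/-- the norm of the path started at `z` -/
noncomputable def RZ (z : ℝ × ℝ × ℝ) (p : Pth × Pth × Pth) (t : ℝ≥0) : ℝ :=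
  Real.sqrt ((z.1 + p.1 t) ^ 2 + (z.2.1 + p.2.1 t) ^ 2 + (z.2.2 + p.2.2 t) ^ 2)

lemma measurable_RZ (t : ℝ≥0) :
    Measurable (fun r : (ℝ × ℝ × ℝ) × (Pth × Pth × Pth) => RZ r.1 r.2 t) := by
  have hev := measurable_eval t
  unfold RZ
  fun_prop

lemma measurable_PP (L : List (ℝ≥0 × (ℝ → ℝ≥0∞))) (hL : ∀ p ∈ L, 0 < p.1 ∧ Measurable p.2) :
    ∀ t : ℝ≥0, Measurable (fun r : (ℝ × ℝ × ℝ) × (Pth × Pth × Pth) => PP L t (RZ r.1 r.2)) := by
  induction L with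
  | nil => intro t; exact measurable_const
  | cons p L ih =>
    intro t
    have h1 := ih (fun q hq => hL q (List.mem_cons_of_mem _ hq)) (t + p.1)
    have h2 := (hL p List.mem_cons_self).2.comp (measurable_RZ (t + p.1))
    exact h2.mul h1

lemma measurable_KQ (t : ℝ≥0) {φ : ℝ → ℝ≥0∞} (hφ : Measurable φ) : Measurable (KQ t φ) := by
  unfold KQ
  refine Measurable.lintegral_prod_right' (f := fun r : ℝ × ℝ => ENNReal.ofReal (hk t r.1 r.2) * φ r.2) ?_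
  have : Measurable (fun r : ℝ × ℝ => hk t r.1 r.2) := by
    unfold hk
    fun_prop
  exact (ENNReal.measurable_ofReal.comp this).mul (hφ.comp measurable_snd)

lemma measurable_NK (L : List (ℝ≥0 × (ℝ → ℝ≥0∞))) {ψ : ℝ → ℝ≥0∞}
    (hL : ∀ p ∈ L, 0 < p.1 ∧ Measurable p.2) (hψ : Measurable ψ) : Measurable (NK L ψ) := by
  induction L with
  | nil => exact hψ
  | cons p L ih =>
    have h1 := ih (fun q hq => hL q (List.mem_cons_of_mem _ hq))
    exact measurable_KQ p.1 ((hL p List.mem_cons_self).2.mul h1)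

lemma PP_shift (L : List (ℝ≥0 × (ℝ → ℝ≥0∞))) (f : ℝ≥0 → ℝ) : ∀ s t : ℝ≥0,
    PP L (s + t) f = PP L t (fun u => f (s + u)) := by
  induction L with
  | nil => intro s t; rfl
  | cons p L ih =>
    intro s t
    show p.2 (f (s + t + p.1)) * PP L (s + t + p.1) f =
      p.2 (f (s + (t + p.1))) * PP L (t + p.1) (fun u => f (s + u))
    rw [← ih s (t + p.1), add_assoc]

lemma total_cons (p : ℝ≥0 × (ℝ → ℝ≥0∞)) (L : List (ℝ≥0 × (ℝ → ℝ≥0∞))) :
    total (p :: L) = p.1 + total L := by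
  simp [total]

lemma RZ_shift (z : ℝ × ℝ × ℝ) (p : Pth × Pth × Pth) (s u : ℝ≥0) :
    RZ z p (s + u) = RZ (z.1 + p.1 s, z.2.1 + p.2.1 s, z.2.2 + p.2.2 s)
      (shift s p.1, shift s p.2.1, shift s p.2.2) u := by
  unfold RZ
  simp only [shift_apply]
  congr 1
  ring

/-- one step for a general starting point -/
lemma step (h2 : S_MKV) {W : Measure Pth} (hW : IsWiener W) (s : ℝ≥0) (φ : ℝ → ℝ≥0∞)
    (L : List (ℝ≥0 × (ℝ → ℝ≥0∞))) (ψ : ℝ → ℝ≥0∞) (hφ : Measurable φ)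
    (hL : ∀ p ∈ L, 0 < p.1 ∧ Measurable p.2) (hψ : Measurable ψ) (z : ℝ × ℝ × ℝ) :
    ∫⁻ p, PP ((s, φ) :: L) 0 (RZ z p) * ψ (RZ z p (total ((s, φ) :: L))) ∂(W3 W) =
      ∫⁻ a, ∫⁻ b, ∫⁻ c, φ (Real.sqrt ((z.1 + a) ^ 2 + (z.2.1 + b) ^ 2 + (z.2.2 + c) ^ 2)) *
        ∫⁻ q, PP L 0 (RZ (z.1 + a, z.2.1 + b, z.2.2 + c) q) *
          ψ (RZ (z.1 + a, z.2.1 + b, z.2.2 + c) q (total L)) ∂(W3 W)
        ∂(gaussianReal 0 s) ∂(gaussianReal 0 s) ∂(gaussianReal 0 s) := by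
  have hWp : IsProbabilityMeasure W := hW.toIsPreBrownianReal.isGaussianProcess.isProbabilityMeasure
  set Φ : (ℝ × ℝ × ℝ) × (Pth × Pth × Pth) → ℝ≥0∞ := fun r =>
    φ (Real.sqrt ((z.1 + r.1.1) ^ 2 + (z.2.1 + r.1.2.1) ^ 2 + (z.2.2 + r.1.2.2) ^ 2)) *
      (PP L 0 (RZ (z.1 + r.1.1, z.2.1 + r.1.2.1, z.2.2 + r.1.2.2) r.2) *
        ψ (RZ (z.1 + r.1.1, z.2.1 + r.1.2.1, z.2.2 + r.1.2.2) r.2 (total L))) with hΦdef
  have hT : Measurable (fun r : (ℝ × ℝ × ℝ) × (Pth × Pth × Pth) =>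
      (((z.1 + r.1.1, z.2.1 + r.1.2.1, z.2.2 + r.1.2.2) : ℝ × ℝ × ℝ), r.2)) := by fun_prop
  have hΦ : Measurable Φ := by
    refine Measurable.mul (hφ.comp (by fun_prop)) (Measurable.mul ?_ ?_)
    · exact (measurable_PP L hL 0).comp hT
    · exact hψ.comp ((measurable_RZ (total L)).comp hT)
  have h := markov3 h2 hW s Φ hΦ
  have e1 : ∀ p : Pth × Pth × Pth,
      PP ((s, φ) :: L) 0 (RZ z p) * ψ (RZ z p (total ((s, φ) :: L))) =
        Φ ((p.1 s, p.2.1 s, p.2.2 s), (shift s p.1, shift s p.2.1, shift s p.2.2)) := by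
    intro p
    show φ (RZ z p (0 + s)) * PP L (0 + s) (RZ z p) * ψ (RZ z p (total ((s, φ) :: L))) = _
    rw [total_cons, zero_add]
    have e : PP L s (RZ z p) = PP L 0 (fun u => RZ z p (s + u)) := by
      rw [← PP_shift L (RZ z p) s 0, add_zero]
    rw [e]
    have e' : (fun u => RZ z p (s + u)) = RZ (z.1 + p.1 s, z.2.1 + p.2.1 s, z.2.2 + p.2.2 s)
      (shift s p.1, shift s p.2.1, shift s p.2.2) := funext fun u => RZ_shift z p s u
    rw [e', RZ_shift z p s (total L)]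
    simp only [hΦdef]
    rw [mul_assoc]
    rfl
  rw [lintegral_congr e1, h]
  refine lintegral_congr fun a => lintegral_congr fun b => lintegral_congr fun c => ?_
  simp only [hΦdef]
  rw [lintegral_const_mul]
  refine Measurable.mul ?_ ?_
  · exact (measurable_PP L hL 0).comp (measurable_const.prodMk measurable_id)
  · exact hψ.comp ((measurable_RZ (total L)).comp (measurable_const.prodMk measurable_id))

lemma ae_pos (s : ℝ≥0) (hs : 0 < s) (z₁ : ℝ) : ∀ᵐ a ∂(gaussianReal 0 s), z₁ + a ≠ 0 := by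
  have : NullSingletonClass (gaussianReal 0 s) := nullSingletonClass_gaussianReal hs.ne'
  have h : ∀ᵐ a ∂(gaussianReal 0 s), a ≠ -z₁ := by
    rw [ae_iff]
    have e : {a : ℝ | ¬ a ≠ -z₁} = {-z₁} := by
      ext a
      simp
    rw [e]
    exact measure_singleton _
  filter_upwards [h] with a ha h0
  exact ha (by linarith)

lemma norm_pos {x y z : ℝ} (hx : x ≠ 0) : 0 < Real.sqrt (x ^ 2 + y ^ 2 + z ^ 2) := by
  apply Real.sqrt_pos.2
  positivity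

lemma ae_zero {W : Measure Pth} (hW : IsWiener W) : ∀ᵐ w ∂W, w 0 = 0 := by
  have hl : HasLaw (fun w : Pth => w 0) (gaussianReal 0 0) W := hW.toIsPreBrownianReal.hasLaw_eval 0
  have h1 : ∀ᵐ x ∂(gaussianReal 0 0), x = 0 := by
    rw [gaussianReal_zero_var]
    exact (ae_dirac_iff (measurableSet_singleton 0)).2 rfl
  rw [← hl.map_eq] at h1
  exact ae_of_ae_map hl.aemeasurable h1

lemma ofReal_inv_mul {y : ℝ} (hy : 0 < y) : ENNReal.ofReal y⁻¹ * ENNReal.ofReal y = 1 := by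
  rw [← ENNReal.ofReal_mul (by positivity), inv_mul_cancel₀ hy.ne', ENNReal.ofReal_one]

/-- finite-dimensional laws of the norm of the motion started at `z ≠ 0` -/
theorem nested (h1 : S_RAD) (h2 : S_MKV) {W : Measure Pth} (hW : IsWiener W)
    (L : List (ℝ≥0 × (ℝ → ℝ≥0∞))) (ψ : ℝ → ℝ≥0∞)
    (hL : ∀ p ∈ L, 0 < p.1 ∧ Measurable p.2) (hψ : Measurable ψ) : ∀ z : ℝ × ℝ × ℝ,
    0 < Real.sqrt (z.1 ^ 2 + z.2.1 ^ 2 + z.2.2 ^ 2) →
    ∫⁻ p, PP L 0 (RZ z p) * ψ (RZ z p (total L)) ∂(W3 W) =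
      ENNReal.ofReal (Real.sqrt (z.1 ^ 2 + z.2.1 ^ 2 + z.2.2 ^ 2))⁻¹ *
        NK L (fun y => ENNReal.ofReal y * ψ y) (Real.sqrt (z.1 ^ 2 + z.2.1 ^ 2 + z.2.2 ^ 2)) := by
  have hWp : IsProbabilityMeasure W := hW.toIsPreBrownianReal.isGaussianProcess.isProbabilityMeasure
  induction L with
  | nil =>
    intro z hz
    have hW3 : IsProbabilityMeasure (W3 W) := by unfold W3; infer_instance
    have h0 := ae_zero hW
    have ha : ∀ᵐ p ∂(W3 W), p.1 0 = 0 := by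
      unfold W3
      exact Measure.quasiMeasurePreserving_fst.ae h0
    have hb : ∀ᵐ p ∂(W3 W), p.2.1 0 = 0 := by
      unfold W3
      exact Measure.quasiMeasurePreserving_snd.ae (Measure.quasiMeasurePreserving_fst.ae h0)
    have hc : ∀ᵐ p ∂(W3 W), p.2.2 0 = 0 := by
      unfold W3
      exact Measure.quasiMeasurePreserving_snd.ae (Measure.quasiMeasurePreserving_snd.ae h0)
    have e : ∀ᵐ p ∂(W3 W), PP [] 0 (RZ z p) * ψ (RZ z p (total [])) =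
        ψ (Real.sqrt (z.1 ^ 2 + z.2.1 ^ 2 + z.2.2 ^ 2)) := by
      filter_upwards [ha, hb, hc] with p h1 h2 h3
      have ht : total ([] : List (ℝ≥0 × (ℝ → ℝ≥0∞))) = 0 := rfl
      rw [ht]
      simp only [RZ, h1, h2, h3, add_zero]
      show 1 * _ = _
      rw [one_mul]
    rw [lintegral_congr_ae e, lintegral_const, measure_univ, mul_one]
    show _ = ENNReal.ofReal _ * (ENNReal.ofReal _ * ψ _)
    rw [← mul_assoc, ofReal_inv_mul hz, one_mul]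
  | cons p L ih =>
    intro z hz
    obtain ⟨s, φ⟩ := p
    have hs : 0 < s := (hL (s, φ) List.mem_cons_self).1
    have hφ : Measurable φ := (hL (s, φ) List.mem_cons_self).2
    have hL' : ∀ p ∈ L, 0 < p.1 ∧ Measurable p.2 := fun q hq => hL q (List.mem_cons_of_mem _ hq)
    have ih' := ih hL'
    rw [step h2 hW s φ L ψ hφ hL' hψ z]
    set N : ℝ → ℝ≥0∞ := NK L (fun y => ENNReal.ofReal y * ψ y) with hN
    have hNm : Measurable N := measurable_NK L hL' (ENNReal.measurable_ofReal.mul hψ)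
    have e1 : ∫⁻ a, ∫⁻ b, ∫⁻ c, φ (Real.sqrt ((z.1 + a) ^ 2 + (z.2.1 + b) ^ 2 + (z.2.2 + c) ^ 2)) *
        ∫⁻ q, PP L 0 (RZ (z.1 + a, z.2.1 + b, z.2.2 + c) q) *
          ψ (RZ (z.1 + a, z.2.1 + b, z.2.2 + c) q (total L)) ∂(W3 W)
        ∂(gaussianReal 0 s) ∂(gaussianReal 0 s) ∂(gaussianReal 0 s) =
        ∫⁻ a, ∫⁻ b, ∫⁻ c, (fun y => φ y * (ENNReal.ofReal y⁻¹ * N y))
          (Real.sqrt ((z.1 + a) ^ 2 + (z.2.1 + b) ^ 2 + (z.2.2 + c) ^ 2))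
        ∂(gaussianReal 0 s) ∂(gaussianReal 0 s) ∂(gaussianReal 0 s) := by
      refine lintegral_congr_ae ?_
      filter_upwards [ae_pos s hs z.1] with a ha
      refine lintegral_congr fun b => lintegral_congr fun c => ?_
      have := ih' (z.1 + a, z.2.1 + b, z.2.2 + c) (norm_pos ha)
      simp only at this ⊢
      rw [this]
    rw [e1, (h1 s (fun y => φ y * (ENNReal.ofReal y⁻¹ * N y)) hs
      (hφ.mul ((ENNReal.measurable_ofReal.comp measurable_inv).mul hNm))).1 z.1 z.2.1 z.2.2 hz]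
    congr 1
    show _ = KQ s (fun y => φ y * N y) _
    unfold KQ
    refine setLIntegral_congr_fun measurableSet_Ioi fun y hy => ?_
    have hy' : (0 : ℝ) < y := hy
    simp only
    congr 1
    calc ENNReal.ofReal y * (φ y * (ENNReal.ofReal y⁻¹ * N y))
        = (ENNReal.ofReal y⁻¹ * ENNReal.ofReal y) * (φ y * N y) := by ring
      _ = φ y * N y := by rw [ofReal_inv_mul hy', one_mul]

/-- (BF) -/
theorem t_BF (h1 : S_RAD) (h2 : S_MKV) : S_BF := by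
  intro W hW s φ L ψ hs hφ hL hψ
  have e0 : ∀ p : Pth × Pth × Pth, Rad p = RZ (0, 0, 0) p := by
    intro p
    funext t
    simp [Rad, RZ]
  simp only [e0]
  rw [step h2 hW s φ L ψ hφ hL hψ (0, 0, 0)]
  set N : ℝ → ℝ≥0∞ := NK L (fun y => ENNReal.ofReal y * ψ y) with hN
  have hNm : Measurable N := measurable_NK L hL (ENNReal.measurable_ofReal.mul hψ)
  simp only [zero_add]
  have e2 : ∫⁻ a, ∫⁻ b, ∫⁻ c, φ (Real.sqrt (a ^ 2 + b ^ 2 + c ^ 2)) *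
        ∫⁻ q, PP L 0 (RZ (a, b, c) q) * ψ (RZ (a, b, c) q (total L)) ∂(W3 W)
        ∂(gaussianReal 0 s) ∂(gaussianReal 0 s) ∂(gaussianReal 0 s) =
        ∫⁻ a, ∫⁻ b, ∫⁻ c, (fun y => φ y * (ENNReal.ofReal y⁻¹ * N y))
          (Real.sqrt (a ^ 2 + b ^ 2 + c ^ 2))
        ∂(gaussianReal 0 s) ∂(gaussianReal 0 s) ∂(gaussianReal 0 s) := by
    refine lintegral_congr_ae ?_
    filter_upwards [ae_pos s hs 0] with a ha
    rw [zero_add] at ha
    refine lintegral_congr fun b => lintegral_congr fun c => ?_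
    have := nested h1 h2 hW L ψ hL hψ (a, b, c) (norm_pos ha)
    simp only at this ⊢
    rw [this]
  rw [e2, (h1 s (fun y => φ y * (ENNReal.ofReal y⁻¹ * N y)) hs
      (hφ.mul ((ENNReal.measurable_ofReal.comp measurable_inv).mul hNm))).2]
  refine setLIntegral_congr_fun measurableSet_Ioi fun y hy => ?_
  have hy' : (0 : ℝ) < y := hy
  rw [ENNReal.ofReal_mul' hy'.le]
  calc ENNReal.ofReal (ent s y) * ENNReal.ofReal y * (φ y * (ENNReal.ofReal y⁻¹ * N y))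
      = ENNReal.ofReal (ent s y) * ((ENNReal.ofReal y⁻¹ * ENNReal.ofReal y) * (φ y * N y)) := by ring
    _ = ENNReal.ofReal (ent s y) * (φ y * N y) := by rw [ofReal_inv_mul hy', one_mul]

end Pool.Agent.R444.BWBF
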