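import Mathlib

/-!
Two generators `x, y` of the multiplicative group of a field with `3^9` elements with
`x^27 = x+1`, `y^27 = y+1`, distinguished by a Moebius invariant.
-/

namespace Pool.Agent.R444.BoseSinger

open Polynomial

/-- numerator of the invariant `(z^9-z)^4/(z^3-z)^10` -/
def nu {L : Type*} [CommRing L] (z : L) : L := (z ^ 9 - z) ^ 4

/-- denominator of the invariant -/
def de {L : Type*} [CommRing L] (z : L) : L := (z ^ 3 - z) ^ 10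

/-- `E z = 0` iff the invariant `J = nu/de` satisfies `J^3 + J^2 + 2 = 0`. -/
def E {L : Type*} [CommRing L] (z : L) : L := nu z ^ 3 + nu z ^ 2 * de z + 2 * de z ^ 3

lemma b1 {R : Type*} [CommRing R] [CharP R 3] (A B : R) (n : ℕ) :
    (A - B - 1) ^ (3 ^ n) = A ^ (3 ^ n) - B ^ (3 ^ n) - 1 := by
  have : Fact (Nat.Prime 3) := ⟨Nat.prime_three⟩
  rw [sub_pow_char_pow (A - B) 1, sub_pow_char_pow A B, one_pow]

lemma b2 {R : Type*} [CommRing R] [CharP R 3] (z : R) (n m : ℕ) (h : 27 * 3 ^ n = m) :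
    (z ^ 27 - z - 1) ^ (3 ^ n) = z ^ m - z ^ (3 ^ n) - 1 := by
  rw [b1, ← pow_mul, h]

lemma three_zero (R : Type*) [CommRing R] [CharP R 3] : (3 : R) = 0 := by
  have := CharP.cast_eq_zero R 3
  exact_mod_cast this

lemma b3 {R : Type*} [CommRing R] [CharP R 3] (z : R) (m : ℕ) (h : 3 ^ 9 = m) :
    z ^ 27 - z - 1 ∣ z ^ m - z := by
  have h3 := three_zero R
  have e0 := b2 z 3 (3 ^ 6) (by norm_num)
  have e1 := b2 z 6 m (by rw [← h]; norm_num)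
  have e3 : z ^ m - z = (z ^ 27 - z - 1) + (z ^ 27 - z - 1) ^ (3 ^ 3) +
      (z ^ 27 - z - 1) ^ (3 ^ 6) := by
    rw [e0, e1]
    generalize z ^ (3 ^ 6) = B
    have : z ^ (3 ^ 3) = z ^ 27 := by norm_num
    rw [this]
    linear_combination h3
  rw [e3]
  exact dvd_add (dvd_add dvd_rfl (dvd_pow_self _ (by norm_num))) (dvd_pow_self _ (by norm_num))

lemma exists_root {L : Type*} [Field L] [CharP L 3] [Finite L] (hL : Nat.card L = 3 ^ 9)
    (P : L[X]) (hdeg : P.degree ≠ 0) (hP : P ∣ X ^ 27 - X - 1) : ∃ z : L, P.eval z = 0 := by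
  have h1 := b3 (X : L[X]) (Nat.card L) hL.symm
  have h2 : Splits (X ^ Nat.card L - X : L[X]) := Polynomial.splits_X_pow_nat_card_sub_X (K := L)
  have h0 : (X ^ Nat.card L - X : L[X]) ≠ 0 :=
    FiniteField.X_pow_card_sub_X_ne_zero L (p := Nat.card L) (by rw [hL]; norm_num)
  exact (h2.of_dvd h0 (hP.trans h1)).exists_eval_eq_zero hdeg

lemma cube_sub {R : Type*} [CommRing R] [CharP R 3] (A B : R) (n : ℕ) :
    (A - B) ^ (3 ^ n) = A ^ (3 ^ n) - B ^ (3 ^ n) := by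
  have : Fact (Nat.Prime 3) := ⟨Nat.prime_three⟩
  exact sub_pow_char_pow A B n

lemma cube_add {R : Type*} [CommRing R] [CharP R 3] (A B : R) (n : ℕ) :
    (A + B) ^ (3 ^ n) = A ^ (3 ^ n) + B ^ (3 ^ n) := by
  have : Fact (Nat.Prime 3) := ⟨Nat.prime_three⟩
  exact add_pow_char_pow A B 3 n

/-- `z^27 - z` in terms of `t = z^3 - z`. -/
lemma trace_form {R : Type*} [CommRing R] [CharP R 3] (z : R) :
    z ^ 27 - z = (z ^ 3 - z) ^ 9 + (z ^ 3 - z) ^ 3 + (z ^ 3 - z) := by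
  have h := cube_sub (z ^ 3) z 2
  have h' := cube_sub (z ^ 3) z 1
  norm_num at h h'
  rw [h, h']
  ring

lemma nine_form {R : Type*} [CommRing R] [CharP R 3] (z : R) :
    z ^ 9 - z = (z ^ 3 - z) ^ 3 + (z ^ 3 - z) := by
  have h' := cube_sub (z ^ 3) z 1
  norm_num at h'
  rw [h']
  ring

lemma factor {R : Type*} [CommRing R] [CharP R 3] (T : R) :
    T ^ 9 + T ^ 3 + T - 1 =
      (T ^ 3 + 2 * T ^ 2 + 1) * (T ^ 3 + 2 * T ^ 2 + T + 1) * (T ^ 3 + 2 * T ^ 2 + 2 * T + 2) := by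
  have h3 := three_zero R
  linear_combination (-(1 + T + 4 * T ^ 2 + 6 * T ^ 3 + 9 * T ^ 4 + 10 * T ^ 5 + 8 * T ^ 6 +
    5 * T ^ 7 + 2 * T ^ 8)) * h3

lemma exists_x {L : Type*} [Field L] [CharP L 3] [Finite L] (hL : Nat.card L = 3 ^ 9) :
    ∃ z : L, (z ^ 3 - z) ^ 3 + 2 * (z ^ 3 - z) ^ 2 + 1 = 0 := by
  have hd : ((X ^ 3 - X) ^ 3 + 2 * (X ^ 3 - X) ^ 2 + 1 : L[X]).degree = 9 := by
    compute_degree!
  obtain ⟨z, hz⟩ := exists_root hL ((X ^ 3 - X) ^ 3 + 2 * (X ^ 3 - X) ^ 2 + 1 : L[X])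
    (by rw [hd]; norm_num) (by
      have e := trace_form (X : L[X])
      have e' := factor (X ^ 3 - X : L[X])
      have : (X ^ 27 - X - 1 : L[X]) = (X ^ 3 - X) ^ 9 + (X ^ 3 - X) ^ 3 + (X ^ 3 - X) - 1 := by
        rw [e]
      rw [this, e', mul_assoc]
      exact dvd_mul_right _ _)
  refine ⟨z, ?_⟩
  simpa using hz

lemma exists_y {L : Type*} [Field L] [CharP L 3] [Finite L] (hL : Nat.card L = 3 ^ 9) :
    ∃ z : L, (z ^ 3 - z) ^ 3 + 2 * (z ^ 3 - z) ^ 2 + (z ^ 3 - z) + 1 = 0 := by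
  have hd : ((X ^ 3 - X) ^ 3 + 2 * (X ^ 3 - X) ^ 2 + (X ^ 3 - X) + 1 : L[X]).degree = 9 := by
    compute_degree!
  obtain ⟨z, hz⟩ := exists_root hL
    ((X ^ 3 - X) ^ 3 + 2 * (X ^ 3 - X) ^ 2 + (X ^ 3 - X) + 1 : L[X])
    (by rw [hd]; norm_num) (by
      have e := trace_form (X : L[X])
      have e' := factor (X ^ 3 - X : L[X])
      have : (X ^ 27 - X - 1 : L[X]) = (X ^ 3 - X) ^ 9 + (X ^ 3 - X) ^ 3 + (X ^ 3 - X) - 1 := by
        rw [e]
      rw [this, e', mul_comm ((X ^ 3 - X : L[X]) ^ 3 + 2 * (X ^ 3 - X) ^ 2 + 1), mul_assoc]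
      exact dvd_mul_right _ _)
  refine ⟨z, ?_⟩
  simpa using hz

lemma c1_trace {R : Type*} [CommRing R] (h3 : (3 : R) = 0) (t : R)
    (h : t ^ 3 + 2 * t ^ 2 + 1 = 0) : t ^ 9 + t ^ 3 + t = 1 := by
  linear_combination (0 + 2 + 1*t + 2*t^2 + 1*t^4 + 1*t^5 + 1*t^6) * h + (0 - 1 - 2*t^2 - 1*t^3 - 2*t^4 - 1*t^5 - 1*t^6 - 1*t^7 - 1*t^8) * h3

lemma c1_t13 {R : Type*} [CommRing R] (h3 : (3 : R) = 0) (t : R)
    (h : t ^ 3 + 2 * t ^ 2 + 1 = 0) : t ^ 13 = -1 := by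
  linear_combination (0 + 1 + 1*t^2 + 2*t^3 + 1*t^4 + 1*t^5 + 2*t^6 + 1*t^8 + 1*t^9 + 1*t^10) * h + (0 - 1*t^2 - 1*t^3 - 1*t^4 - 2*t^5 - 2*t^6 - 1*t^7 - 2*t^8 - 1*t^9 - 1*t^10 - 1*t^11 - 1*t^12) * h3

lemma c1_E {R : Type*} [CommRing R] (h3 : (3 : R) = 0) (t : R)
    (h : t ^ 3 + 2 * t ^ 2 + 1 = 0) :
    ((t ^ 3 + t) ^ 4) ^ 3 + ((t ^ 3 + t) ^ 4) ^ 2 * t ^ 10 + 2 * (t ^ 10) ^ 3 = 0 := by
  linear_combination (0 + 1*t^12 + 1*t^14 + 2*t^15 + 1*t^16 + 1*t^17 + 1*t^18 + 2*t^20 + 2*t^21 + 1*t^26 + 2*t^29 + 1*t^30 + 2*t^31 + 1*t^32 + 1*t^33) * h + (0 + 3*t^14 - 1*t^15 + 21*t^16 - 2*t^17 + 72*t^18 - 1*t^19 + 166*t^20 - 1*t^21 + 272*t^22 - 2*t^23 + 326*t^24 + 287*t^26 + 183*t^28 - 1*t^29 + 83*t^30 - 2*t^31 + 23*t^32 - 2*t^33 + 3*t^34 - 1*t^35) * h3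

lemma c2_trace {R : Type*} [CommRing R] (h3 : (3 : R) = 0) (t : R)
    (h : t ^ 3 + 2 * t ^ 2 + t + 1 = 0) : t ^ 9 + t ^ 3 + t = 1 := by
  linear_combination (0 + 2 + 2*t + 1*t^3 + 1*t^5 + 1*t^6) * h + (0 - 1 - 1*t - 2*t^2 - 2*t^3 - 1*t^4 - 1*t^5 - 1*t^6 - 1*t^7 - 1*t^8) * h3

lemma c2_t13 {R : Type*} [CommRing R] (h3 : (3 : R) = 0) (t : R)
    (h : t ^ 3 + 2 * t ^ 2 + t + 1 = 0) : t ^ 13 = -1 := by
  linear_combination (0 + 1 + 2*t + 2*t^2 + 2*t^3 + 1*t^4 + 2*t^5 + 1*t^7 + 1*t^9 + 1*t^10) * h + (0 - 1*t - 2*t^2 - 3*t^3 - 3*t^4 - 3*t^5 - 2*t^6 - 2*t^7 - 1*t^8 - 1*t^9 - 1*t^10 - 1*t^11 - 1*t^12) * h3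

lemma c2_E {R : Type*} [CommRing R] (h3 : (3 : R) = 0) (t : R)
    (h : t ^ 3 + 2 * t ^ 2 + t + 1 = 0) :
    ((t ^ 3 + t) ^ 4) ^ 3 + ((t ^ 3 + t) ^ 4) ^ 2 * t ^ 10 + 2 * (t ^ 10) ^ 3 = 2 * t := by
  linear_combination (0 + 1*t + 2*t^2 + 2*t^3 + 2*t^4 + 1*t^5 + 2*t^6 + 1*t^8 + 1*t^10 + 1*t^11 + 1*t^12 + 2*t^13 + 1*t^14 + 2*t^16 + 1*t^18 + 2*t^21 + 2*t^22 + 2*t^24 + 2*t^25 + 1*t^26 + 2*t^27 + 2*t^28 + 2*t^29 + 2*t^30 + 1*t^31 + 1*t^32 + 1*t^33) * h + (0 - 1*t - 1*t^2 - 2*t^3 - 3*t^4 - 3*t^5 - 3*t^6 - 2*t^7 - 2*t^8 - 1*t^9 - 1*t^10 - 1*t^11 - 1*t^12 - 2*t^13 + 2*t^14 - 2*t^15 + 20*t^16 - 1*t^17 + 72*t^18 - 1*t^19 + 167*t^20 - 1*t^21 + 272*t^22 - 2*t^23 + 324*t^24 - 2*t^25 + 285*t^26 - 3*t^27 + 181*t^28 - 3*t^29 + 80*t^30 - 3*t^31 + 22*t^32 - 2*t^33 + 3*t^34 - 1*t^35) * h3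

lemma pow757 {R : Type*} [CommRing R] [CharP R 3] (z : R) (h : z ^ 27 = z + 1) :
    z ^ 757 = z ^ 3 - z := by
  have h3 := three_zero R
  have h1 : z ^ 729 = z + 2 := by
    have e := cube_add z 1 3
    norm_num at e
    calc z ^ 729 = (z ^ 27) ^ 27 := by rw [← pow_mul]
      _ = (z + 1) ^ 27 := by rw [h]
      _ = z + 2 := by rw [e, h]; ring
  calc z ^ 757 = z * z ^ 27 * z ^ 729 := by
        rw [mul_assoc, ← pow_add, ← pow_succ']
    _ = z * (z + 1) * (z + 2) := by rw [h, h1]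
    _ = z ^ 3 - z := by linear_combination (z ^ 2 + z) * h3

/-- The order of such an element is `3^9 - 1`. -/
lemma order_eq {L : Type*} [Field L] [CharP L 3] [Finite L] (hL : Nat.card L = 3 ^ 9)
    (z : L) (h : z ^ 27 = z + 1) (ht : (z ^ 3 - z) ^ 13 = -1) (ht2 : (z ^ 3 - z) ^ 2 ≠ 1) :
    orderOf z = 19682 := by
  have h3 := three_zero L
  have hz0 : z ≠ 0 := by
    rintro rfl
    norm_num at h
  have hne : (1 : L) ≠ -1 := by
    intro h0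
    have : (1 : L) = 0 := by linear_combination h3 - h0
    exact one_ne_zero this
  apply orderOf_eq_of_pow_and_pow_div_prime (by norm_num)
  · have : Fintype L := Fintype.ofFinite L
    have := FiniteField.pow_card_sub_one_eq_one z hz0
    rw [← Nat.card_eq_fintype_card, hL] at this
    norm_num at this
    exact this
  · intro p hp hdvd
    have hp3 : p = 2 ∨ p = 13 ∨ p = 757 := by
      have e : 19682 = 2 * (13 * 757) := by norm_num
      rw [e] at hdvd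
      have h757 : Nat.Prime 757 := by norm_num
      have h13 : Nat.Prime 13 := by norm_num
      rcases (Nat.Prime.dvd_mul hp).mp hdvd with h | h
      · left; exact (Nat.prime_dvd_prime_iff_eq hp Nat.prime_two).mp h
      · rcases (Nat.Prime.dvd_mul hp).mp h with h | h
        · right; left; exact (Nat.prime_dvd_prime_iff_eq hp h13).mp h
        · right; right; exact (Nat.prime_dvd_prime_iff_eq hp h757).mp h
    rcases hp3 with rfl | rfl | rfl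
    · norm_num
      have : z ^ 9841 = (z ^ 757) ^ 13 := by rw [← pow_mul]
      rw [this, pow757 z h, ht]
      exact hne.symm
    · norm_num
      have : z ^ 1514 = (z ^ 757) ^ 2 := by rw [← pow_mul]
      rw [this, pow757 z h]
      exact ht2
    · norm_num
      intro h26
      have : z ^ 27 = z := by rw [pow_succ, h26, one_mul]
      rw [h] at this
      have : (1 : L) = 0 := by linear_combination this
      exact one_ne_zero this

/-- The two generators. -/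
theorem exists_xy {L : Type*} [Field L] [CharP L 3] [Finite L] (hL : Nat.card L = 3 ^ 9) :
    ∃ x y : L, x ^ 27 = x + 1 ∧ y ^ 27 = y + 1 ∧ orderOf x = 19682 ∧ orderOf y = 19682 ∧
      E x = 0 ∧ E y ≠ 0 := by
  have h3 := three_zero L
  obtain ⟨x, hx⟩ := exists_x hL
  obtain ⟨y, hy⟩ := exists_y hL
  have hx27 : x ^ 27 = x + 1 := by
    have := trace_form x
    rw [c1_trace h3 _ hx] at this
    linear_combination this
  have hy27 : y ^ 27 = y + 1 := by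
    have := trace_form y
    rw [c2_trace h3 _ hy] at this
    linear_combination this
  refine ⟨x, y, hx27, hy27, ?_, ?_, ?_, ?_⟩
  · apply order_eq hL x hx27 (c1_t13 h3 _ hx)
    intro h2
    generalize x ^ 3 - x = t at hx h2
    have ht : t = 0 := by linear_combination hx - (t + 2) * h2 - h3
    rw [ht] at h2
    norm_num at h2
  · apply order_eq hL y hy27 (c2_t13 h3 _ hy)
    intro h2
    generalize y ^ 3 - y = t at hy h2
    have ht : t = 0 := by linear_combination (t + 1) * h3 - hy + (t + 2) * h2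
    rw [ht] at h2
    norm_num at h2
  · unfold E nu de
    rw [nine_form]
    exact c1_E h3 _ hx
  · unfold E nu de
    rw [nine_form, c2_E h3 _ hy]
    generalize y ^ 3 - y = t at hy
    intro h2
    have ht : t = 0 := by linear_combination t * h3 - h2
    rw [ht] at hy
    norm_num at hy

end Pool.Agent.R444.BoseSinger
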