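import Mathlib
import Pool.Agent.R444.BoseSinger

/-!
Invariance of `E` and discrete logarithms, for fields with `3^9` elements.
-/

namespace Pool.Agent.R444.BoseSinger

section Inv

lemma E_neg {L : Type*} [Field L] (z : L) : E (-z) = E z := by
  unfold E nu de
  ring

variable {L : Type*} [Field L] [CharP L 3]

lemma E_add (z v : L) (hv : v ^ 3 = v) : E (z + v) = E z := by
  have h9 : v ^ 9 = v := by
    calc v ^ 9 = (v ^ 3) ^ 3 := by rw [← pow_mul]
      _ = v := by rw [hv, hv]
  have e1 := cube_add z v 1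
  have e2 := cube_add z v 2
  norm_num at e1 e2
  unfold E nu de
  rw [e1, e2, hv, h9]
  ring

lemma E_frob (z : L) (i : ℕ) : E (z ^ 3 ^ i) = (E z) ^ 3 ^ i := by
  have : Fact (Nat.Prime 3) := ⟨Nat.prime_three⟩
  have h : ∀ w : L, w ^ 3 ^ i = iterateFrobenius L 3 i w := fun w => by
    rw [iterateFrobenius_def]
  rw [h, h]
  unfold E nu de
  simp only [map_add, map_mul, map_pow, map_sub, map_ofNat]

lemma E_frob_zero (z : L) (i : ℕ) : E (z ^ 3 ^ i) = 0 ↔ E z = 0 := by
  rw [E_frob]
  constructor
  · intro h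
    exact pow_eq_zero_iff (by positivity) |>.mp h
  · intro h
    rw [h]
    exact zero_pow (by positivity)

lemma E_moebius (x z r t w v : L) (hr : r ^ 3 = r) (ht : t ^ 3 = t) (hw : w ^ 3 = w)
    (hv : v ^ 3 = v) (hrel : r * x + t * (z * x) + w * z = v) (hB : t * x + w ≠ 0)
    (hD : v * t + r * w ≠ 0) : E z = 0 ↔ E x = 0 := by
  have p9 : ∀ u : L, u ^ 3 = u → u ^ 9 = u := by
    intro u hu
    calc u ^ 9 = (u ^ 3) ^ 3 := by rw [← pow_mul]
      _ = u := by rw [hu, hu]
  have hA : z * (t * x + w) = v - r * x := by linear_combination hrel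
  have c3 : (t * x + w) ^ 3 = t * x ^ 3 + w := by
    have e1 := cube_add (t * x) w 1
    norm_num at e1
    rw [e1, mul_pow, ht, hw]
  have c9 : (t * x + w) ^ 9 = t * x ^ 9 + w := by
    have e1 := cube_add (t * x) w 2
    norm_num at e1
    rw [e1, mul_pow, p9 t ht, p9 w hw]
  have a3 : (v - r * x) ^ 3 = v - r * x ^ 3 := by
    have e1 := cube_sub v (r * x) 1
    norm_num at e1
    rw [e1, mul_pow, hr, hv]
  have a9 : (v - r * x) ^ 9 = v - r * x ^ 9 := by
    have e1 := cube_sub v (r * x) 2
    norm_num at e1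
    rw [e1, mul_pow, p9 r hr, p9 v hv]
  have z3 : z ^ 3 * (t * x ^ 3 + w) = v - r * x ^ 3 := by
    rw [← c3, ← mul_pow, hA, a3]
  have z9 : z ^ 9 * (t * x ^ 9 + w) = v - r * x ^ 9 := by
    rw [← c9, ← mul_pow, hA, a9]
  set B := t * x + w with hBdef
  set D := v * t + r * w with hDdef
  have k3 : (z ^ 3 - z) * B ^ 4 = -D * (x ^ 3 - x) := by
    have : (z ^ 3 - z) * B ^ 4 = (z ^ 3 * B ^ 3) * B - (z * B) * B ^ 3 := by ring
    rw [this, c3, z3, hA, hBdef, hDdef]
    ring
  have k9 : (z ^ 9 - z) * B ^ 10 = -D * (x ^ 9 - x) := by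
    have : (z ^ 9 - z) * B ^ 10 = (z ^ 9 * B ^ 9) * B - (z * B) * B ^ 9 := by ring
    rw [this, c9, z9, hA, hBdef, hDdef]
    ring
  have hD3 : D ^ 3 = D := by
    have e1 := cube_add (v * t) (r * w) 1
    norm_num at e1
    rw [hDdef, e1, mul_pow, mul_pow, hr, hv, ht, hw]
  have hD2 : D ^ 2 = 1 := by
    have : D * (D ^ 2 - 1) = 0 := by linear_combination hD3
    rcases mul_eq_zero.mp this with h | h
    · exact absurd h hD
    · linear_combination h
  clear_value B D
  have n1 : nu z * B ^ 40 = nu x := by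
    unfold nu
    calc (z ^ 9 - z) ^ 4 * B ^ 40 = ((z ^ 9 - z) * B ^ 10) ^ 4 := by ring
      _ = (D ^ 2) ^ 2 * (x ^ 9 - x) ^ 4 := by rw [k9]; ring
      _ = (x ^ 9 - x) ^ 4 := by rw [hD2]; ring
  have n2 : de z * B ^ 40 = de x := by
    unfold de
    calc (z ^ 3 - z) ^ 10 * B ^ 40 = ((z ^ 3 - z) * B ^ 4) ^ 10 := by ring
      _ = (D ^ 2) ^ 5 * (x ^ 3 - x) ^ 10 := by rw [k3]; ring
      _ = (x ^ 3 - x) ^ 10 := by rw [hD2]; ring
  have key : E z * B ^ 120 = E x := by
    unfold E
    generalize nu z = a at n1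
    generalize de z = b at n2
    rw [← n1, ← n2]
    ring
  constructor
  · intro h
    rw [← key, h, zero_mul]
  · intro h
    rw [← key] at h
    rcases mul_eq_zero.mp h with h | h
    · exact h
    · exact absurd (pow_eq_zero_iff (by norm_num) |>.mp h) hB

end Inv

section Field

variable {F L : Type*} [Field F] [Field L] [Algebra F L]

lemma charP_of_card (hF : Nat.card F = 3) : CharP L 3 ∧ ringChar F = 3 := by
  have hfin : Finite F := Nat.finite_of_card_ne_zero (by omega)
  have : Fintype F := Fintype.ofFinite F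
  have h1 : (3 : F) = 0 := by
    have := FiniteField.cast_card_eq_zero F
    rw [← Nat.card_eq_fintype_card, hF] at this
    exact_mod_cast this
  have hF3 : CharP F 3 := (CharP.charP_iff_prime_eq_zero Nat.prime_three).mpr (by exact_mod_cast h1)
  refine ⟨?_, ringChar.eq F 3 ▸ rfl⟩
  rw [CharP.charP_iff_prime_eq_zero Nat.prime_three]
  have := congrArg (algebraMap F L) h1
  rw [map_zero, map_ofNat] at this
  exact_mod_cast this

lemma coe_cube (hF : Nat.card F = 3) (v : F) : (algebraMap F L v) ^ 3 = algebraMap F L v := by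
  have hfin : Finite F := Nat.finite_of_card_ne_zero (by omega)
  have : Fintype F := Fintype.ofFinite F
  have h := FiniteField.pow_card v
  rw [← Nat.card_eq_fintype_card, hF] at h
  rw [← map_pow, h]

lemma natDegree_eq_nine (hF : Nat.card F = 3) (hd : Module.finrank F L = 9) (z : L)
    (hz : z ^ 27 = z + 1) : (minpoly F z).natDegree = 9 := by
  have hfin : Finite F := Nat.finite_of_card_ne_zero (by omega)
  have hmf : Module.Finite F L := Module.finite_of_finrank_pos (by omega)
  have hLf : Finite L := Module.finite_of_finite F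
  obtain ⟨hchar, -⟩ := charP_of_card (L := L) hF
  have hint : IsIntegral F z := Algebra.IsIntegral.isIntegral z
  have h1 := IntermediateField.adjoin.finrank hint
  have h2 : Module.finrank F (IntermediateField.adjoin F {z}) ∣ 9 := by
    rw [← hd]
    exact Dvd.intro _ (Module.finrank_mul_finrank F (IntermediateField.adjoin F {z}) L)
  rw [← h1]
  obtain ⟨d, hdd⟩ : ∃ d, d = Module.finrank F (IntermediateField.adjoin F {z}) := ⟨_, rfl⟩
  rw [← hdd] at h2 ⊢
  have h9 : d ∈ Nat.divisors 9 := Nat.mem_divisors.mpr ⟨h2, by norm_num⟩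
  have h9' : Nat.divisors 9 = {1, 3, 9} := by decide
  rw [h9'] at h9
  simp only [Finset.mem_insert, Finset.mem_singleton] at h9
  have hcard : Nat.card (IntermediateField.adjoin F {z}) = 3 ^ d := by
    rw [Module.natCard_eq_pow_finrank (K := F), hF, hdd]
  have hfix : z ^ (3 ^ d) = z := by
    have : Fintype (IntermediateField.adjoin F {z}) := Fintype.ofFinite _
    have h := FiniteField.pow_card (IntermediateField.AdjoinSimple.gen F z)
    rw [← Nat.card_eq_fintype_card, hcard] at h
    have h' := congrArg (algebraMap (IntermediateField.adjoin F {z}) L) h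
    rw [map_pow, IntermediateField.AdjoinSimple.algebraMap_gen] at h'
    exact h'
  have hne : ¬ (z ^ 27 = z) := by
    rw [hz]
    intro h
    have : (1 : L) = 0 := by linear_combination h
    exact one_ne_zero this
  rcases h9 with h | h | h
  · exfalso
    apply hne
    rw [h] at hfix
    norm_num at hfix
    calc z ^ 27 = ((z ^ 3) ^ 3) ^ 3 := by rw [← pow_mul, ← pow_mul]
      _ = z := by rw [hfix, hfix, hfix]
  · exfalso
    apply hne
    rw [h] at hfix
    norm_num at hfix
    exact hfix
  · exact h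

lemma not_mem_of_natDegree (z : L) (hz : (minpoly F z).natDegree = 9) (c : F) :
    algebraMap F L c ≠ z := by
  intro h
  rw [← h, minpoly.eq_X_sub_C, Polynomial.natDegree_X_sub_C] at hz
  norm_num at hz

/-- the three values of `algebraMap F L v` -/
lemma coe_cases (hF : Nat.card F = 3) (v : F) :
    algebraMap F L v = 0 ∨ algebraMap F L v = 1 ∨ algebraMap F L v = 2 := by
  obtain ⟨hchar, -⟩ := charP_of_card (L := L) hF
  have h3 := three_zero L
  have hv := coe_cube (L := L) hF v
  have : algebraMap F L v * ((algebraMap F L v - 1) * (algebraMap F L v - 2)) = 0 := by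
    linear_combination hv + (algebraMap F L v - (algebraMap F L v) ^ 2) * h3
  rcases mul_eq_zero.mp this with h | h
  · exact Or.inl h
  · rcases mul_eq_zero.mp h with h | h
    · exact Or.inr (Or.inl (by linear_combination h))
    · exact Or.inr (Or.inr (by linear_combination h))

lemma pow729 [CharP L 3] (z : L) (hz : z ^ 27 = z + 1) : z ^ 729 = z + 2 := by
  have e := cube_add z 1 3
  norm_num at e
  calc z ^ 729 = (z ^ 27) ^ 27 := by rw [← pow_mul]
    _ = (z + 1) ^ 27 := by rw [hz]
    _ = z + 2 := by rw [e, hz]; ring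

end Field

end Pool.Agent.R444.BoseSinger
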