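import Mathlib
import Pool.Agent.R444.BoseSinger2

/-!
Discrete logarithms of the two special generators, and the three-element log sets.
-/

namespace Pool.Agent.R444.BoseSinger

variable {F L : Type*} [Field F] [Field L] [Algebra F L]

/-- The two generators as powers of a given generator `θ`. -/
theorem exists_exponents (hF : Nat.card F = 3) (hd : Module.finrank F L = 9) (θ : Lˣ)
    (hθ : ∀ x : Lˣ, x ∈ Subgroup.zpowers θ) :
    orderOf θ = 19682 ∧ ∃ a c d d' : ℤ,
      (((θ ^ a : Lˣ) : L) ^ 27 = ((θ ^ a : Lˣ) : L) + 1) ∧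
      (((θ ^ c : Lˣ) : L) ^ 27 = ((θ ^ c : Lˣ) : L) + 1) ∧
      c = d * a ∧ d * d' ≡ 1 [ZMOD 19682] ∧
      E ((θ ^ a : Lˣ) : L) = 0 ∧ E ((θ ^ c : Lˣ) : L) ≠ 0 := by
  have hfin : Finite F := Nat.finite_of_card_ne_zero (by omega)
  have hmf : Module.Finite F L := Module.finite_of_finrank_pos (by omega)
  have hLf : Finite L := Module.finite_of_finite F
  obtain ⟨hchar, -⟩ := charP_of_card (L := L) hF
  have hL : Nat.card L = 3 ^ 9 := by
    rw [Module.natCard_eq_pow_finrank (K := F), hF, hd]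
  have hU : Nat.card Lˣ = 19682 := by
    rw [Nat.card_units, hL]
    norm_num
  have hord : orderOf θ = 19682 := by
    rw [orderOf_eq_card_of_forall_mem_zpowers hθ, hU]
  refine ⟨hord, ?_⟩
  obtain ⟨x, y, hx, hy, ox, oy, Ex, Ey⟩ := exists_xy hL
  have x0 : x ≠ 0 := by
    rintro rfl
    norm_num at hx
  have y0 : y ≠ 0 := by
    rintro rfl
    norm_num at hy
  have oux : orderOf (Units.mk0 x x0) = Nat.card Lˣ := by
    rw [hU, ← ox, ← orderOf_units, Units.val_mk0]
  have ouy : orderOf (Units.mk0 y y0) = Nat.card Lˣ := by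
    rw [hU, ← oy, ← orderOf_units, Units.val_mk0]
  have gx : ∀ u : Lˣ, u ∈ Subgroup.zpowers (Units.mk0 x x0) := by
    intro u
    rw [Subgroup.eq_top_of_card_eq (Subgroup.zpowers (Units.mk0 x x0))
      (by rw [Nat.card_zpowers, oux])]
    trivial
  have gy : ∀ u : Lˣ, u ∈ Subgroup.zpowers (Units.mk0 y y0) := by
    intro u
    rw [Subgroup.eq_top_of_card_eq (Subgroup.zpowers (Units.mk0 y y0))
      (by rw [Nat.card_zpowers, ouy])]
    trivial
  obtain ⟨a, ha⟩ := Subgroup.mem_zpowers_iff.mp (hθ (Units.mk0 x x0))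
  obtain ⟨d, hdd⟩ := Subgroup.mem_zpowers_iff.mp (gx (Units.mk0 y y0))
  obtain ⟨d', hd'⟩ := Subgroup.mem_zpowers_iff.mp (gy (Units.mk0 x x0))
  have hc : θ ^ (d * a) = Units.mk0 y y0 := by
    rw [← hdd, ← ha, ← zpow_mul, mul_comm]
  refine ⟨a, d * a, d, d', ?_, ?_, rfl, ?_, ?_, ?_⟩
  · rw [ha, Units.val_mk0, hx]
  · rw [hc, Units.val_mk0, hy]
  · have h1 : (Units.mk0 x x0) ^ (d * d') = (Units.mk0 x x0) ^ (1 : ℤ) := by
      rw [zpow_mul, hdd, hd', zpow_one]
    have h2 := (zpow_eq_zpow_iff_modEq (x := Units.mk0 x x0)).mp h1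
    rw [oux, hU] at h2
    exact_mod_cast h2
  · rw [ha, Units.val_mk0]
    exact Ex
  · rw [hc, Units.val_mk0]
    exact Ey

end Pool.Agent.R444.BoseSinger
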