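import Mathlib

/-!
Arithmetic part of the proof that the seven-mark Golomb ruler `{0,1,4,10,18,23,25}` is in no
affine image of a Bose-Chowla Sidon set.
-/

namespace Pool.Agent.R444.Golomb

/-- coefficients of `g` in `1 + g + ... + g^(t-1)` when `g^2 = u g - n` -/
def e {F : Type*} [Field F] (u n : F) : ℕ → F
  | 0 => 0
  | 1 => 0
  | (t + 2) => u * e u n (t + 1) - n * e u n t + 1

theorem no_common_zero {F : Type*} [Field F] (u n : F)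
    (h4 : e u n 4 = 0) (h10 : e u n 10 = 0) (h18 : e u n 18 = 0) (h23 : e u n 23 = 0)
    (h25 : e u n 25 = 0) : False := by
  have r : ∀ t, e u n (t + 2) = u * e u n (t + 1) - n * e u n t + 1 := fun t => rfl
  have e0 : e u n 0 = 0 := rfl
  have e1 : e u n 1 = 0 := rfl
  have hn : n = u ^ 2 + u + 1 := by
    have e2 := r 0
    have e3 := r 1
    have e4 := r 2
    simp only [Nat.reduceAdd] at e2 e3 e4
    rw [e1, e0] at e2
    rw [e2, e1] at e3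
    rw [e3, e2, h4] at e4
    linear_combination e4
  subst hn
  have e2 : e u (u ^ 2 + u + 1) 2 = 1 := by have := r 0; simp only [Nat.reduceAdd] at this; rw [this, e1, e0]; ring
  have e3 : e u (u ^ 2 + u + 1) 3 = (0 + 1 + 1*u) := by
    have := r 1; simp only [Nat.reduceAdd] at this; rw [this, e2, e1]; ring
  have e4 : e u (u ^ 2 + u + 1) 4 = 0 := by
    have := r 2; simp only [Nat.reduceAdd] at this; rw [this, e3, e2]; ring
  have e5 : e u (u ^ 2 + u + 1) 5 = (0 - 2*u - 2*u^2 - 1*u^3) := by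
    have := r 3; simp only [Nat.reduceAdd] at this; rw [this, e4, e3]; ring
  have e6 : e u (u ^ 2 + u + 1) 6 = (0 + 1 - 2*u^2 - 2*u^3 - 1*u^4) := by
    have := r 4; simp only [Nat.reduceAdd] at this; rw [this, e5, e4]; ring
  have e7 : e u (u ^ 2 + u + 1) 7 = (0 + 1 + 3*u + 4*u^2 + 3*u^3 + 1*u^4) := by
    have := r 5; simp only [Nat.reduceAdd] at this; rw [this, e6, e5]; ring
  have e8 : e u (u ^ 2 + u + 1) 8 = (0 + 4*u^2 + 8*u^3 + 8*u^4 + 4*u^5 + 1*u^6) := by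
    have := r 6; simp only [Nat.reduceAdd] at this; rw [this, e7, e6]; ring
  have e9 : e u (u ^ 2 + u + 1) 9 = (0 - 4*u - 8*u^2 - 6*u^3 + 4*u^5 + 3*u^6 + 1*u^7) := by
    have := r 7; simp only [Nat.reduceAdd] at this; rw [this, e8, e7]; ring
  have e10 : e u (u ^ 2 + u + 1) 10 = (0 + 1 - 8*u^2 - 20*u^3 - 26*u^4 - 20*u^5 - 9*u^6 - 2*u^7) := by
    have := r 8; simp only [Nat.reduceAdd] at this; rw [this, e9, e8]; ring
  have e11 : e u (u ^ 2 + u + 1) 11 = (0 + 1 + 5*u + 12*u^2 + 10*u^3 - 6*u^4 - 24*u^5 - 27*u^6 - 17*u^7 - 6*u^8 - 1*u^9) := by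
    have := r 9; simp only [Nat.reduceAdd] at this; rw [this, e10, e9]; ring
  have e12 : e u (u ^ 2 + u + 1) 12 = (0 + 12*u^2 + 40*u^3 + 64*u^4 + 60*u^5 + 31*u^6 + 4*u^7 - 6*u^8 - 4*u^9 - 1*u^10) := by
    have := r 10; simp only [Nat.reduceAdd] at this; rw [this, e11, e10]; ring
  have e13 : e u (u ^ 2 + u + 1) 13 = (0 - 6*u - 18*u^2 - 15*u^3 + 24*u^4 + 84*u^5 + 117*u^6 + 99*u^7 + 54*u^8 + 18*u^9 + 3*u^10) := by
    have := r 11; simp only [Nat.reduceAdd] at this; rw [this, e12, e11]; ring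
  have e14 : e u (u ^ 2 + u + 1) 14 = (0 + 1 - 18*u^2 - 70*u^3 - 131*u^4 - 140*u^5 - 71*u^6 + 22*u^7 + 70*u^8 + 60*u^9 + 29*u^10 + 8*u^11 + 1*u^12) := by
    have := r 12; simp only [Nat.reduceAdd] at this; rw [this, e13, e12]; ring
  have e15 : e u (u ^ 2 + u + 1) 15 = (0 + 1 + 7*u + 24*u^2 + 21*u^3 - 61*u^4 - 224*u^5 - 365*u^6 - 371*u^7 - 248*u^8 - 101*u^9 - 15*u^10 + 8*u^11 + 5*u^12 + 1*u^13) := by
    have := r 13; simp only [Nat.reduceAdd] at this; rw [this, e14, e13]; ring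
  have e16 : e u (u ^ 2 + u + 1) 16 = (0 + 24*u^2 + 112*u^3 + 240*u^4 + 280*u^5 + 118*u^6 - 176*u^7 - 392*u^8 - 400*u^9 - 260*u^10 - 112*u^11 - 30*u^12 - 4*u^13) := by
    have := r 14; simp only [Nat.reduceAdd] at this; rw [this, e15, e14]; ring
  have e17 : e u (u ^ 2 + u + 1) 17 = (0 - 8*u - 32*u^2 - 28*u^3 + 128*u^4 + 504*u^5 + 930*u^6 + 1078*u^7 + 808*u^8 + 328*u^9 - 36*u^10 - 152*u^11 - 110*u^12 - 44*u^13 - 10*u^14 - 1*u^15) := by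
    have := r 15; simp only [Nat.reduceAdd] at this; rw [this, e16, e15]; ring
  have e18 : e u (u ^ 2 + u + 1) 18 = (0 + 1 - 32*u^2 - 168*u^3 - 404*u^4 - 504*u^5 - 134*u^6 + 708*u^7 + 1528*u^8 + 1776*u^9 + 1380*u^10 + 736*u^11 + 250*u^12 + 36*u^13 - 10*u^14 - 6*u^15 - 1*u^16) := by
    have := r 16; simp only [Nat.reduceAdd] at this; rw [this, e17, e16]; ring
  have e19 : e u (u ^ 2 + u + 1) 19 = (0 + 1 + 9*u + 40*u^2 + 36*u^3 - 236*u^4 - 1008*u^5 - 2066*u^6 - 2646*u^7 - 2108*u^8 - 686*u^9 + 676*u^10 + 1240*u^11 + 1034*u^12 + 556*u^13 + 200*u^14 + 45*u^15 + 5*u^16) := by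
    have := r 17; simp only [Nat.reduceAdd] at this; rw [this, e18, e17]; ring
  have e20 : e u (u ^ 2 + u + 1) 20 = (0 + 40*u^2 + 240*u^3 + 640*u^4 + 840*u^5 + 34*u^6 - 2136*u^7 - 4748*u^8 - 6120*u^9 - 5370*u^10 - 3216*u^11 - 1126*u^12 + 12*u^13 + 280*u^14 + 180*u^15 + 62*u^16 + 12*u^17 + 1*u^18) := by
    have := r 18; simp only [Nat.reduceAdd] at this; rw [this, e19, e18]; ring
  have e21 : e u (u ^ 2 + u + 1) 21 = (0 - 10*u - 50*u^2 - 45*u^3 + 400*u^4 + 1848*u^5 + 4150*u^6 + 5754*u^7 + 4684*u^8 + 692*u^9 - 4002*u^10 - 6600*u^11 - 6166*u^12 - 3956*u^13 - 1778*u^14 - 521*u^15 - 70*u^16 + 12*u^17 + 7*u^18 + 1*u^19) := by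
    have := r 19; simp only [Nat.reduceAdd] at this; rw [this, e20, e19]; ring
  have e22 : e u (u ^ 2 + u + 1) 22 = (0 + 1 - 50*u^2 - 330*u^3 - 965*u^4 - 1320*u^5 + 334*u^6 + 5412*u^7 + 12604*u^8 + 17688*u^9 + 16930*u^10 + 10704*u^11 + 3112*u^12 - 1836*u^13 - 3122*u^14 - 2250*u^15 - 1043*u^16 - 324*u^17 - 63*u^18 - 6*u^19) := by
    have := r 20; simp only [Nat.reduceAdd] at this; rw [this, e21, e20]; ring
  have e23 : e u (u ^ 2 + u + 1) 23 = (0 + 1 + 11*u + 60*u^2 + 55*u^3 - 635*u^4 - 3168*u^5 - 7718*u^6 - 11418*u^7 - 9176*u^8 + 1474*u^9 + 16314*u^10 + 26840*u^11 + 27472*u^12 + 19834*u^13 + 10064*u^14 + 3133*u^15 + 119*u^16 - 464*u^17 - 273*u^18 - 83*u^19 - 14*u^20 - 1*u^21) := by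
    have := r 21; simp only [Nat.reduceAdd] at this; rw [this, e22, e21]; ring
  have e24 : e u (u ^ 2 + u + 1) 24 = (0 + 60*u^2 + 440*u^3 + 1400*u^4 + 1980*u^5 - 1217*u^6 - 12144*u^7 - 29768*u^8 - 44880*u^9 - 45748*u^10 - 29008*u^11 - 3906*u^12 + 15492*u^13 + 21680*u^14 + 17272*u^15 + 9548*u^16 + 3736*u^17 + 966*u^18 + 120*u^19 - 14*u^20 - 8*u^21 - 1*u^22) := by
    have := r 22; simp only [Nat.reduceAdd] at this; rw [this, e23, e22]; ring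
  have e25 : e u (u ^ 2 + u + 1) 25 = (0 - 12*u - 72*u^2 - 66*u^3 + 960*u^4 + 5148*u^5 + 13501*u^6 + 21087*u^7 + 16168*u^8 - 10648*u^9 - 53492*u^10 - 90376*u^11 - 99634*u^12 - 78052*u^13 - 41878*u^14 - 11351*u^15 + 3956*u^16 + 6760*u^17 + 4354*u^18 + 1786*u^19 + 490*u^20 + 84*u^21 + 7*u^22) := by
    have := r 23; simp only [Nat.reduceAdd] at this; rw [this, e24, e23]; ring
  rw [e10] at h10
  rw [e23] at h23
  rw [e25] at h25
  have h2197 : (2197 : F) = 0 := by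
    linear_combination (0 + 8619 + 77064*u + 480974*u^2 + 947245*u^3 - 1912573*u^4 - 14418404*u^5 - 36071698*u^6 - 49296117*u^7 - 29465150*u^8 + 25858521*u^9 + 85140003*u^10 + 109664776*u^11 + 89964108*u^12 + 49250487*u^13 + 15845778*u^14 + 437203*u^15 - 2451345*u^16 - 1330030*u^17 - 354055*u^18 - 46982*u^19 - 2366*u^20) * h10 + (0 - 6422 - 6422*u + 43940*u^2 + 96837*u^3 + 99372*u^4 + 49010*u^5 + 4732*u^6) * h23
  have h13 : (13 : F) = 0 := by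
    have h : (13 : F) ^ 3 = 0 := by
      rw [← h2197]; norm_num
    exact pow_eq_zero_iff (three_ne_zero) |>.mp h
  have h1 : (1 : F) = 0 := by
    linear_combination (0 + 1 - 6*u - 4*u^2 + 5*u^3 + 3*u^4 - 6*u^5 + 2*u^6 - 3*u^7 - 6*u^9 + 6*u^10 - 3*u^11 - 4*u^12 - 5*u^13 - 2*u^14 - 5*u^15 + 4*u^16 - 6*u^17 - 1*u^18 - 1*u^19 + 6*u^20 - 6*u^21) * h23 + (0 - 5 + 1*u - 5*u^2 - 2*u^3 + 1*u^4 + 5*u^5 + 6*u^6 - 3*u^7 - 5*u^8 - 3*u^9 - 4*u^10 - 6*u^11 + 5*u^12 + 6*u^13 - 2*u^14 - 3*u^15 - 2*u^18 + 1*u^19 + 1*u^20) * h25 - (0 + 5*u + 26*u^2 - 2*u^3 - 433*u^4 - 1813*u^5 - 4072*u^6 - 5837*u^7 - 5008*u^8 + 357*u^9 + 12372*u^10 + 32384*u^11 + 55620*u^12 + 66972*u^13 + 48966*u^14 + 284*u^15 - 54381*u^16 - 78070*u^17 - 49575*u^18 + 18244*u^19 + 84795*u^20 + 108618*u^21 + 76530*u^22 + 12959*u^23 - 39953*u^24 - 55201*u^25 - 37027*u^26 - 8810*u^27 + 9648*u^28 + 12895*u^29 + 5736*u^30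 - 4421*u^31 - 11644*u^32 - 13118*u^33 - 9744*u^34 - 4798*u^35 - 1166*u^36 + 343*u^37 + 493*u^38 + 251*u^39 + 75*u^40 + 13*u^41 + 1*u^42) * h13
  exact one_ne_zero h1

end Pool.Agent.R444.Golomb
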